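import Pool.Agent.Helper80K.Ea.Lab

/-!
# Cliques and linkages of the labelled digraph
-/

namespace Pool.Agent.Helper80K.Ea

open Pool.Agent.R550.DS Pool.Agent.R550.W1

variable {n k : ℕ} {x : List Bool}

/-- the numbers of the vertices -/
def cnt (n k : ℕ) (c : ℕ × ℕ) : ℕ :=
  if c.1 = 0 then n + 1 else if c.1 = 1 then n * (k + 2) + 1 else if c.1 = 2 then n + 2
  else if c.1 = 3 then 1 else if c.1 = 4 then 1 else k

/-- the list of the vertices -/
def vs (n k : ℕ) : List Lb :=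
  blk (List.product (List.range 5) (List.range (2 * k)) ++
    (List.product [5, 6] (List.range k))) (cnt n k)

/-- the list of the names of the paths -/
def ks (k : ℕ) : List Lb :=
  blk (List.product (List.range 3) (List.range (2 * k)) ++
    (List.product [3] (List.range k))) (fun c => if c.1 = 3 then k else 1)

/-- the first vertex -/
def src (a : Lb) : Lb :=
  if a.1.1 = 0 then ((1, a.1.2), 0) else if a.1.1 = 1 then ((0, a.1.2), 0)
  else if a.1.1 = 2 then ((3, a.1.2), 0) else ((5, a.1.2), a.2)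

/-- the last vertex -/
def tgt (n k : ℕ) (a : Lb) : Lb :=
  if a.1.1 = 0 then ((2, a.1.2), n + 1) else if a.1.1 = 1 then ((1, a.1.2), n * (k + 2))
  else if a.1.1 = 2 then ((4, a.1.2), 0) else ((6, a.1.2), a.2)

theorem mem_vs {a : Lb} : a ∈ vs n k ↔
    (a.1.1 = 0 ∧ a.1.2 < 2 * k ∧ a.2 ≤ n) ∨ (a.1.1 = 1 ∧ a.1.2 < 2 * k ∧ a.2 ≤ n * (k + 2)) ∨
    (a.1.1 = 2 ∧ a.1.2 < 2 * k ∧ a.2 ≤ n + 1) ∨ (a.1.1 = 3 ∧ a.1.2 < 2 * k ∧ a.2 = 0) ∨
    (a.1.1 = 4 ∧ a.1.2 < 2 * k ∧ a.2 = 0) ∨ ((a.1.1 = 5 ∨ a.1.1 = 6) ∧ a.1.2 < k ∧ a.2 < k) := by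
  obtain ⟨⟨e, c⟩, p⟩ := a
  unfold vs
  rw [mem_blk, List.mem_append, List.pair_mem_product, List.pair_mem_product, List.mem_range,
    List.mem_range, List.mem_range]
  simp only [List.mem_cons, List.not_mem_nil, or_false]
  unfold cnt
  simp only
  split_ifs <;> omega

theorem nodup_vs : (vs n k).Nodup := by
  refine nodup_blk ?_ _
  rw [List.nodup_append]
  refine ⟨List.nodup_range.product List.nodup_range, List.Nodup.product (by simp)
    List.nodup_range, ?_⟩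
  rintro ⟨e, c⟩ h ⟨e', c'⟩ h'
  rw [List.pair_mem_product, List.mem_range, List.mem_range] at h
  rw [List.pair_mem_product, List.mem_range] at h'
  simp only [List.mem_cons, List.not_mem_nil, or_false] at h'
  simp only [ne_eq, Prod.mk.injEq]
  omega

theorem mem_ks {a : Lb} : a ∈ ks k ↔
    (a.1.1 = 0 ∧ a.1.2 < 2 * k ∧ a.2 = 0) ∨ (a.1.1 = 1 ∧ a.1.2 < 2 * k ∧ a.2 = 0) ∨
    (a.1.1 = 2 ∧ a.1.2 < 2 * k ∧ a.2 = 0) ∨ (a.1.1 = 3 ∧ a.1.2 < k ∧ a.2 < k) := by
  obtain ⟨⟨e, c⟩, p⟩ := a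
  unfold ks
  rw [mem_blk, List.mem_append, List.pair_mem_product, List.pair_mem_product, List.mem_range,
    List.mem_range, List.mem_range]
  simp only [List.mem_cons, List.not_mem_nil, or_false]
  split_ifs <;> omega

theorem nodup_ks : (ks k).Nodup := by
  refine nodup_blk ?_ _
  rw [List.nodup_append]
  refine ⟨List.nodup_range.product List.nodup_range, List.Nodup.product (by simp)
    List.nodup_range, ?_⟩
  rintro ⟨e, c⟩ h ⟨e', c'⟩ h'
  rw [List.pair_mem_product, List.mem_range, List.mem_range] at h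
  rw [List.pair_mem_product, List.mem_range] at h'
  simp only [List.mem_cons, List.not_mem_nil, or_false] at h'
  simp only [ne_eq, Prod.mk.injEq]
  omega

/-- a linkage of the labelled digraph -/
structure Lk (n k : ℕ) (x : List Bool) (P : Lb → List Lb) : Prop where
  walk : ∀ a ∈ ks k, W (Arr n k x) (tgt n k a) (src a) (P a)
  mem : ∀ a ∈ ks k, ∀ b ∈ P a, b ∈ vs n k
  disj : ∀ a ∈ ks k, ∀ a' ∈ ks k, a ≠ a' → ∀ b, b ∈ P a → b ∉ P a'

theorem mul_lem {v w k : ℕ} (h : w < v) : w * (k + 2) + (k + 2) ≤ v * (k + 2) := by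
  have := Nat.mul_le_mul_right (k + 2) (show w + 1 ≤ v from h)
  rw [Nat.add_mul, Nat.one_mul] at this
  exact this

/-- the value of a selection gadget -/
theorem gadget {P : Lb → List Lb} (h : Lk n k x P) {c : ℕ} (hc : c < 2 * k) : ∃ v v' : ℕ, v < n ∧
    v' ≤ v ∧ (∀ r, r ≤ v * (k + 2) → ((1, c), r) ∈ P ((0, c), 0)) ∧
    ∀ r, v' * (k + 2) + k + 1 ≤ r → r ≤ n * (k + 2) → ((1, c), r) ∈ P ((1, c), 0) := by
  have hQ := h.walk ((0, c), 0) (mem_ks.2 (Or.inl ⟨rfl, hc, rfl⟩))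
  have hT := h.walk ((1, c), 0) (mem_ks.2 (Or.inr (Or.inl ⟨rfl, hc, rfl⟩)))
  have hW := h.walk ((2, c), 0) (mem_ks.2 (Or.inr (Or.inr (Or.inl ⟨rfl, hc, rfl⟩))))
  obtain ⟨v, -, h1, h2, h3⟩ := lemQ _ _ hQ rfl 0 rfl
  obtain ⟨v', -, h4, h5⟩ := lemT _ _ hT rfl 0 rfl
  have m2 := mem_vs.1 (h.mem _ (mem_ks.2 (Or.inl ⟨rfl, hc, rfl⟩)) _ h2)
  simp only at m2
  have hv : v < n := by omega
  refine ⟨v, v', hv, ?_, fun r hr => h1 r (Nat.zero_le _) hr, fun r hr hr' => h5 r hr hr'⟩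
  -- the auxiliary path
  have hW' : ∃ w0 p', P ((2, c), 0) = ((3, c), 0) :: p' ∧
      W (Arr n k x) ((4, c), 0) ((0, c), w0) p' := by
    have e1 : src ((2, c), 0) = ((3, c), 0) := rfl
    have e2 : tgt n k ((2, c), 0) = ((4, c), 0) := rfl
    rw [e1, e2] at hW
    rcases hW.inv with ⟨h6, -⟩ | ⟨y, p', g1, g2, g3⟩
    · simp at h6
    · generalize ha : (((3, c), 0) : Lb) = a at g1 g3
      cases g1 with
      | wd c' p'' =>
        simp only [Prod.mk.injEq, true_and, and_true] at ha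
        subst ha
        exact ⟨_, _, g3, g2⟩
      | dd | cc | ff | dc | df | cf | rr | ct | fw | sc => simp at ha
  obtain ⟨w0, p', hp, g2⟩ := hW'
  have hdj := h.disj ((1, c), 0) (mem_ks.2 (Or.inr (Or.inl ⟨rfl, hc, rfl⟩))) ((2, c), 0)
    (mem_ks.2 (Or.inr (Or.inr (Or.inl ⟨rfl, hc, rfl⟩)))) (by simp)
  have hdj0 := h.disj ((0, c), 0) (mem_ks.2 (Or.inl ⟨rfl, hc, rfl⟩)) ((2, c), 0)
    (mem_ks.2 (Or.inr (Or.inr (Or.inl ⟨rfl, hc, rfl⟩)))) (by simp)
  have hmW := h.mem ((2, c), 0) (mem_ks.2 (Or.inr (Or.inr (Or.inl ⟨rfl, hc, rfl⟩))))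
  have hw0 : v' < w0 := by
    by_contra hlt
    refine hdj ((0, c), w0) (h4 w0 (Nat.zero_le _) (by omega)) ?_
    rw [hp]
    exact List.mem_cons_of_mem _ g2.head_mem
  rcases lemW c g2 rfl w0 rfl with ⟨w, h6, h7⟩ | ⟨u, h6, h7⟩
  · have h8 : ((2, c), w) ∈ P ((2, c), 0) := by rw [hp]; exact List.mem_cons_of_mem _ h7
    have m3 := mem_vs.1 (hmW _ h8)
    simp only at m3
    by_contra hlt
    exact hdj0 ((2, c), w) (h3 w (by omega) (by omega)) h8
  · exfalso
    have h8 : ((1, c), u * (k + 2) + k + 1) ∈ P ((2, c), 0) := by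
      rw [hp]; exact List.mem_cons_of_mem _ h7
    have m3 := mem_vs.1 (hmW _ h8)
    simp only at m3
    have h9 := mul_lem (k := k) (show v' < u by omega)
    exact hdj _ (h5 (u * (k + 2) + k + 1) (by omega) (by omega)) h8

/-- **From linkages to cliques.** -/
theorem clique_of_lk {P : Lb → List Lb} (h : Lk n k x P) :
    ∃ f : ℕ → ℕ, (∀ i < k, f i < n) ∧ ∀ i < k, ∀ j < k, alw n x i j (f i) (f j) = true := by
  have key : ∀ c, ∃ v, c < 2 * k → ∃ v' : ℕ, v < n ∧ v' ≤ v ∧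
      (∀ r, r ≤ v * (k + 2) → ((1, c), r) ∈ P ((0, c), 0)) ∧
      ∀ r, v' * (k + 2) + k + 1 ≤ r → r ≤ n * (k + 2) → ((1, c), r) ∈ P ((1, c), 0) := by
    intro c
    by_cases hc : c < 2 * k
    · obtain ⟨v, h1⟩ := gadget h hc
      exact ⟨v, fun _ => h1⟩
    · exact ⟨0, fun h => absurd h hc⟩
  choose f hf using key
  have main : ∀ i < k, ∀ j < k, alw n x i j (f i) (f (k + j)) = true := by
    intro i hi j hj
    have mR : ((3, i), j) ∈ ks k := mem_ks.2 (Or.inr (Or.inr (Or.inr ⟨rfl, hi, hj⟩)))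
    have hR := h.walk _ mR
    have hR' : ∃ v1 p', P ((3, i), j) = ((5, i), j) :: p' ∧
        W (Arr n k x) ((6, i), j) ((1, i), v1 * (k + 2) + j + 1) p' := by
      have e1 : src ((3, i), j) = ((5, i), j) := rfl
      have e2 : tgt n k ((3, i), j) = ((6, i), j) := rfl
      rw [e1, e2] at hR
      rcases hR.inv with ⟨h6, -⟩ | ⟨y, p', g1, g2, g3⟩
      · simp at h6
      · generalize ha : (((5, i), j) : Lb) = a at g1 g3
        cases g1 with
        | sc i' j' v p hi' hj' hp =>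
          simp only [Prod.mk.injEq, true_and] at ha
          obtain ⟨⟨rfl⟩, rfl⟩ := ha
          exact ⟨v, _, g3, by rw [← hp]; exact g2⟩
        | dd | cc | ff | dc | df | cf | rr | ct | fw | wd => simp at ha
    obtain ⟨v1, p', hp, g2⟩ := hR'
    obtain ⟨v, u, h1, h2, h3, h4⟩ := lemR i j hi g2 rfl _ rfl
    have h0' : ((1, i), v1 * (k + 2) + j + 1) ∈ P ((3, i), j) := by
      rw [hp]; exact List.mem_cons_of_mem _ g2.head_mem
    have h2' : ((1, i), v * (k + 2) + j + 1) ∈ P ((3, i), j) := by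
      rw [hp]; exact List.mem_cons_of_mem _ h2
    have h3' : ((1, k + j), u * (k + 2) + i + 1) ∈ P ((3, i), j) := by
      rw [hp]; exact List.mem_cons_of_mem _ h3
    have hci : i < 2 * k := by omega
    have hcj : k + j < 2 * k := by omega
    obtain ⟨a1, a2, a3, a4, a5⟩ := hf i hci
    obtain ⟨b1, b2, b3, b4, b5⟩ := hf (k + j) hcj
    have d1 := h.disj ((0, i), 0) (mem_ks.2 (Or.inl ⟨rfl, hci, rfl⟩)) _ mR (by simp)
    have d2 := h.disj ((1, i), 0) (mem_ks.2 (Or.inr (Or.inl ⟨rfl, hci, rfl⟩))) _ mR (by simp)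
    have d3 := h.disj ((0, k + j), 0) (mem_ks.2 (Or.inl ⟨rfl, hcj, rfl⟩)) _ mR (by simp)
    have d4 := h.disj ((1, k + j), 0) (mem_ks.2 (Or.inr (Or.inl ⟨rfl, hcj, rfl⟩))) _ mR (by simp)
    have m1 := mem_vs.1 (h.mem _ mR _ h2')
    have m2 := mem_vs.1 (h.mem _ mR _ h3')
    simp only at m1 m2
    have e1 : f i ≤ v1 := by
      by_contra hlt
      have := mul_lem (k := k) (not_le.1 hlt)
      exact d1 _ (a4 (v1 * (k + 2) + j + 1) (by omega)) h0'
    have e2 : v1 ≤ v := by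
      by_contra hlt
      have := mul_lem (k := k) (not_le.1 hlt)
      omega
    have e3 : v ≤ a1 := by
      by_contra hlt
      have := mul_lem (k := k) (not_le.1 hlt)
      exact d2 _ (a5 (v * (k + 2) + j + 1) (by omega) (by omega)) h2'
    have e4 : f (k + j) ≤ u := by
      by_contra hlt
      have := mul_lem (k := k) (not_le.1 hlt)
      exact d3 _ (b4 (u * (k + 2) + i + 1) (by omega)) h3'
    have e5 : u ≤ b1 := by
      by_contra hlt
      have := mul_lem (k := k) (not_le.1 hlt)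
      exact d4 _ (b5 (u * (k + 2) + i + 1) (by omega) (by omega)) h3'
    have e6 : v = f i := by omega
    have e7 : u = f (k + j) := by omega
    rw [← e6, ← e7]
    exact h4
  have hdiag : ∀ i < k, f (k + i) = f i := by
    intro i hi
    have h1 := main i hi i hi
    unfold alw at h1
    simp only [decide_true, Bool.true_and, Bool.not_true, Bool.false_and, Bool.or_false,
      decide_eq_true_eq] at h1
    exact h1.symm
  refine ⟨f, fun i hi => ?_, fun i hi j hj => ?_⟩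
  · obtain ⟨a1, a2, -⟩ := hf i (by omega)
    exact a2
  · rw [← hdiag j hj]
    exact main i hi j hj

end Pool.Agent.Helper80K.Ea
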