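import Mathlib
import Pool.Agent.NPC.Defs

/-!
# Acyclic digraphs, ear anonymity, linkages
-/

namespace Pool.Agent.Helper80K.Ea

open Turing Pool.Agent.NPC

/-- A digraph on the vertices `0, …, n - 1` is coded by the list of its `n` lists of
out-neighbours. -/
abbrev Dig : Type := List (List ℕ)

/-- There is an arc from `u` to `v`. -/
def Arc (D : Dig) (u v : ℕ) : Prop := u < D.length ∧ v < D.length ∧ u ≠ v ∧ v ∈ D.getD u []

/-- There is no cycle. -/
def Acyclic (D : Dig) : Prop := ∀ v, ¬ Relation.TransGen (Arc D) v v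

/-- `P` is the list of the vertices of a path. -/
structure IsPath (D : Dig) (P : List ℕ) : Prop where
  ne : P ≠ []
  lt : ∀ v ∈ P, v < D.length
  nodup : P.Nodup
  chain : P.IsChain (Arc D)

/-- the arcs of a path, in their order -/
def arcs (P : List ℕ) : List (ℕ × ℕ) := P.zip P.tail

/-- The path `P` is a subgraph of the path `Q`. -/
def Sub (P Q : List ℕ) : Prop := (∀ v ∈ P, v ∈ Q) ∧ ∀ a ∈ arcs P, a ∈ arcs Q

/-- maximal paths; these are the maximal ears of an acyclic digraph -/
def Maximal (D : Dig) (P : List ℕ) : Prop := IsPath D P ∧ ∀ Q, IsPath D Q → Sub P Q → Sub Q P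

/-- `s` is an identifying sequence for `P` -/
def Identifying (D : Dig) (P : List ℕ) (s : List (ℕ × ℕ)) : Prop :=
  s ≠ [] ∧ s.Sublist (arcs P) ∧ ∀ Q, IsPath D Q → s.Sublist (arcs Q) → Sub Q P

/-- The length of a shortest identifying sequence; this is `0` if `P` has no arcs. -/
noncomputable def eaPath (D : Dig) (P : List ℕ) : ℕ := sInf {m | ∃ s, s.length = m ∧ Identifying D P s}

/-- The ear anonymity of an acyclic digraph. -/
noncomputable def ea (D : Dig) : ℕ := sSup {m | ∃ P, Maximal D P ∧ m = eaPath D P}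

/-- There is a linkage which joins all pairs of `S`. -/
def Linkage (D : Dig) (S : List (ℕ × ℕ)) : Prop :=
  ∃ P : Fin S.length → List ℕ, (∀ i, IsPath D (P i) ∧ (P i).head? = some (S.get i).1 ∧
    (P i).getLast? = some (S.get i).2) ∧ ∀ i j, i ≠ j → (P i).Disjoint (P j)

/-- The Turing machine `M` solves the linkage problem on acyclic digraphs in time
`f k * |x| ^ g (ea D)`, where `k` is the number of the pairs and `|x|` is the length of the code of
the input. -/
def SolvesInTime (M : TM2ComputableAux Bool Bool) (f g : ℕ → ℕ) : Prop :=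
  ∀ (D : Dig) (S : List (ℕ × ℕ)), Acyclic D → ∃ b : Bool, (b = true ↔ Linkage D S) ∧
    Nonempty (TM2OutputsInTime M.tm ((bits (D, S)).map M.inputAlphabet.invFun)
      (some ([b].map M.outputAlphabet.invFun)) (f S.length * (bits (D, S)).length ^ g (ea D)))

end Pool.Agent.Helper80K.Ea
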