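import Pool.Agent.Helper80K.Ea.Defs

/-!
# Ear anonymity of layered acyclic digraphs
-/

namespace Pool.Agent.Helper80K.Ea

variable {D : Dig}

theorem arcs_cons_cons (x y : ℕ) (P : List ℕ) : arcs (x :: y :: P) = (x, y) :: arcs (y :: P) := rfl

theorem mem_of_mem_arcs {P : List ℕ} {a : ℕ × ℕ} (h : a ∈ arcs P) : a.1 ∈ P ∧ a.2 ∈ P.tail := by
  obtain ⟨x, y⟩ := a
  exact ⟨(List.of_mem_zip h).1, (List.of_mem_zip h).2⟩

theorem arc_of_mem_arcs {R : ℕ → ℕ → Prop} {P : List ℕ} (hP : P.IsChain R) {a : ℕ × ℕ}
    (h : a ∈ arcs P) : R a.1 a.2 := by
  induction P with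
  | nil => simp [arcs] at h
  | cons x P ih =>
    cases P with
    | nil => simp [arcs] at h
    | cons y P =>
      rw [arcs_cons_cons, List.mem_cons] at h
      rw [List.isChain_cons_cons] at hP
      rcases h with rfl | h
      · exact hP.1
      · exact ih hP.2 h

theorem arcs_nodup {P : List ℕ} (hP : P.Nodup) : (arcs P).Nodup := by
  induction P with
  | nil => simp [arcs]
  | cons x P ih =>
    cases P with
    | nil => simp [arcs]
    | cons y P =>
      rw [arcs_cons_cons, List.nodup_cons]
      rw [List.nodup_cons] at hP
      exact ⟨fun h => hP.1 (mem_of_mem_arcs h).1, ih hP.2⟩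

/-- a digraph with a rank function which increases along the arcs, and levels such that there is
at most one arc from each vertex to its own level -/
structure Layered (D : Dig) (lev rk : ℕ → ℕ) (B : ℕ) : Prop where
  rank : ∀ u v, Arc D u v → rk u < rk v
  level : ∀ u v, Arc D u v → lev u ≤ lev v
  uniq : ∀ u v v', Arc D u v → Arc D u v' → lev v = lev u → lev v' = lev u → v = v'
  bound : ∀ u, lev u ≤ B

variable {lev rk : ℕ → ℕ} {B : ℕ}

theorem Layered.acyclic (h : Layered D lev rk B) : Acyclic D := by
  intro v hv
  have key : ∀ u w, Relation.TransGen (Arc D) u w → rk u < rk w := by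
    intro u w huw
    induction huw with
    | single h1 => exact h.rank _ _ h1
    | tail _ h2 ih => exact ih.trans (h.rank _ _ h2)
  exact lt_irrefl _ (key v v hv)

theorem rk_lt (h : Layered D lev rk B) {x : ℕ} {P : List ℕ} (hP : (x :: P).IsChain (Arc D)) :
    ∀ y ∈ P, rk x < rk y := by
  induction P generalizing x with
  | nil => simp
  | cons z P ih =>
    rw [List.isChain_cons_cons] at hP
    intro y hy
    have h1 := h.rank _ _ hP.1
    rcases List.mem_cons.1 hy with rfl | hy
    · exact h1
    · exact h1.trans (ih hP.2 y hy)

theorem lev_le (h : Layered D lev rk B) {x : ℕ} {P : List ℕ} (hP : (x :: P).IsChain (Arc D)) :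
    ∀ y ∈ P, lev x ≤ lev y := by
  induction P generalizing x with
  | nil => simp
  | cons z P ih =>
    rw [List.isChain_cons_cons] at hP
    intro y hy
    have h1 := h.level _ _ hP.1
    rcases List.mem_cons.1 hy with rfl | hy
    · exact h1
    · exact h1.trans (ih hP.2 y hy)

/-- if the last vertex is on a higher level, there is an arc leaving the level -/
theorem exists_switch (h : Layered D lev rk B) {x : ℕ} {P : List ℕ}
    (hP : (x :: P).IsChain (Arc D)) {t : ℕ} (ht : (x :: P).getLast? = some t)
    (hlt : lev x < lev t) : ∃ a ∈ arcs (x :: P), lev a.1 = lev x ∧ lev a.1 < lev a.2 := by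
  induction P generalizing x with
  | nil =>
    simp only [List.getLast?_singleton, Option.some.injEq] at ht
    subst ht
    exact absurd hlt (lt_irrefl _)
  | cons z P ih =>
    rw [List.isChain_cons_cons] at hP
    rw [List.getLast?_cons_cons] at ht
    rcases (h.level _ _ hP.1).lt_or_eq with h1 | h1
    · exact ⟨(x, z), by rw [arcs_cons_cons]; exact List.mem_cons_self, rfl, h1⟩
    · obtain ⟨a, ha, h2, h3⟩ := ih hP.2 ht (by rw [← h1]; exact hlt)
      exact ⟨a, by rw [arcs_cons_cons]; exact List.mem_cons_of_mem _ ha, by rw [h2, h1], h3⟩

/-- Two paths with the same ends, such that the second one contains all arcs of the first one which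
change the level, are equal. -/
theorem path_uniq (h : Layered D lev rk B) {P Q : List ℕ} {s t : ℕ} (hP : P.IsChain (Arc D))
    (hQ : Q.IsChain (Arc D)) (hPs : P.head? = some s) (hQs : Q.head? = some s)
    (hPt : P.getLast? = some t) (hQt : Q.getLast? = some t)
    (hsw : ∀ a ∈ arcs P, lev a.1 < lev a.2 → a ∈ arcs Q) : P = Q := by
  induction P generalizing Q s with
  | nil => simp at hPs
  | cons x P ih =>
    simp only [List.head?_cons, Option.some.injEq] at hPs
    subst hPs
    cases Q with
    | nil => simp at hQs
    | cons x' Q =>
      simp only [List.head?_cons, Option.some.injEq] at hQs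
      subst hQs
      cases P with
      | nil =>
        simp only [List.getLast?_singleton, Option.some.injEq] at hPt
        subst hPt
        cases Q with
        | nil => rfl
        | cons z Q =>
          exfalso
          have h1 : x' ∈ z :: Q := by
            rw [List.getLast?_cons_cons] at hQt
            exact List.mem_of_getLast? hQt
          exact lt_irrefl _ (rk_lt h hQ _ h1)
      | cons y P =>
        cases Q with
        | nil =>
          exfalso
          simp only [List.getLast?_singleton, Option.some.injEq] at hQt
          subst hQt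
          have h1 : x' ∈ y :: P := by
            rw [List.getLast?_cons_cons] at hPt
            exact List.mem_of_getLast? hPt
          exact lt_irrefl _ (rk_lt h hP _ h1)
        | cons z Q =>
          have hxP : x' ∉ y :: P := fun h1 => lt_irrefl _ (rk_lt h hP _ h1)
          have hxQ : x' ∉ z :: Q := fun h1 => lt_irrefl _ (rk_lt h hQ _ h1)
          have hP' := List.isChain_cons_cons.1 hP
          have hQ' := List.isChain_cons_cons.1 hQ
          rw [List.getLast?_cons_cons] at hPt hQt
          have hyz : y = z := by
            rcases (h.level _ _ hP'.1).lt_or_eq with h1 | h1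
            · have h2 := hsw (x', y) (by rw [arcs_cons_cons]; exact List.mem_cons_self) h1
              rw [arcs_cons_cons, List.mem_cons] at h2
              rcases h2 with h2 | h2
              · exact (Prod.mk.inj h2).2
              · exact absurd (mem_of_mem_arcs h2).1 hxQ
            · rcases (h.level _ _ hQ'.1).lt_or_eq with h2 | h2
              · exfalso
                have h3 : lev z ≤ lev t := by
                  cases Q with
                  | nil =>
                    simp only [List.getLast?_singleton, Option.some.injEq] at hQt
                    rw [hQt]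
                  | cons w Q =>
                    rw [List.getLast?_cons_cons] at hQt
                    exact lev_le h hQ'.2 _ (List.mem_of_getLast? hQt)
                obtain ⟨a, ha, h4, h5⟩ := exists_switch h hP'.2 hPt (by omega)
                have h6 := hsw a (by rw [arcs_cons_cons]; exact List.mem_cons_of_mem _ ha) h5
                rw [arcs_cons_cons, List.mem_cons] at h6
                rcases h6 with rfl | h6
                · exact hxP (mem_of_mem_arcs ha).1
                · have h7 := (mem_of_mem_arcs h6).1
                  rcases List.mem_cons.1 h7 with h8 | h8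
                  · rw [h8] at h4
                    omega
                  · have := lev_le h hQ'.2 _ h8
                    omega
              · exact h.uniq _ _ _ hP'.1 hQ'.1 h1.symm h2.symm
          subst hyz
          congr 1
          refine ih hP'.2 hQ'.2 rfl rfl hPt hQt ?_
          intro a ha ha'
          have h6 := hsw a (by rw [arcs_cons_cons]; exact List.mem_cons_of_mem _ ha) ha'
          rw [arcs_cons_cons, List.mem_cons] at h6
          rcases h6 with rfl | h6
          · exact absurd (mem_of_mem_arcs ha).1 hxP
          · exact h6

/-- the number of the arcs changing the level -/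
theorem countP_switch (h : Layered D lev rk B) {x : ℕ} {P : List ℕ}
    (hP : (x :: P).IsChain (Arc D)) {t : ℕ} (ht : (x :: P).getLast? = some t) :
    (arcs (x :: P)).countP (fun a => decide (lev a.1 < lev a.2)) + lev x ≤ lev t := by
  induction P generalizing x with
  | nil =>
    simp only [List.getLast?_singleton, Option.some.injEq] at ht
    subst ht
    simp [arcs]
  | cons z P ih =>
    rw [List.isChain_cons_cons] at hP
    rw [List.getLast?_cons_cons] at ht
    have h1 := ih hP.2 ht
    have h2 := h.level _ _ hP.1
    rw [arcs_cons_cons, List.countP_cons]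
    split_ifs with h3
    · simp only [decide_eq_true_eq] at h3
      omega
    · omega

theorem maximal_head (h : Layered D lev rk B) {P : List ℕ} (hP : Maximal D P) {x : ℕ}
    (hx : P.head? = some x) : ∀ u, ¬ Arc D u x := by
  intro u hu
  obtain ⟨hP1, hP2⟩ := hP
  cases P with
  | nil => simp at hx
  | cons x' P =>
    simp only [List.head?_cons, Option.some.injEq] at hx
    subst hx
    have hun : u ∉ x' :: P := by
      intro h1
      have h2 := h.rank _ _ hu
      rcases List.mem_cons.1 h1 with rfl | h1
      · exact lt_irrefl _ h2
      · have := rk_lt h hP1.chain _ h1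
        omega
    have hQ : IsPath D (u :: x' :: P) := by
      refine ⟨by simp, ?_, ?_, ?_⟩
      · intro v hv
        rcases List.mem_cons.1 hv with rfl | hv
        · exact hu.1
        · exact hP1.lt v hv
      · exact List.nodup_cons.2 ⟨hun, hP1.nodup⟩
      · exact List.isChain_cons_cons.2 ⟨hu, hP1.chain⟩
    have h3 := hP2 _ hQ ⟨fun v hv => List.mem_cons_of_mem _ hv, fun a ha => by
      rw [arcs_cons_cons]
      exact List.mem_cons_of_mem _ ha⟩
    exact hun (h3.1 u List.mem_cons_self)

theorem arcs_append_singleton (P : List ℕ) (x u : ℕ) (hx : P.getLast? = some x) :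
    arcs (P ++ [u]) = arcs P ++ [(x, u)] := by
  induction P with
  | nil => simp at hx
  | cons y P ih =>
    cases P with
    | nil =>
      simp only [List.getLast?_singleton, Option.some.injEq] at hx
      subst hx
      rfl
    | cons z P =>
      rw [List.getLast?_cons_cons] at hx
      have := ih hx
      rw [List.cons_append, List.cons_append, arcs_cons_cons, arcs_cons_cons, List.cons_append]
      rw [List.cons_append] at this
      rw [this]

theorem rk_le_last (h : Layered D lev rk B) {P : List ℕ} (hP : P.IsChain (Arc D)) {x : ℕ}
    (hx : P.getLast? = some x) : ∀ y ∈ P, rk y ≤ rk x := by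
  induction P with
  | nil => simp
  | cons z P ih =>
    intro y hy
    cases P with
    | nil =>
      simp only [List.getLast?_singleton, Option.some.injEq] at hx
      subst hx
      rw [List.mem_singleton] at hy
      rw [hy]
    | cons w P =>
      rw [List.getLast?_cons_cons] at hx
      have hP' := List.isChain_cons_cons.1 hP
      rcases List.mem_cons.1 hy with rfl | hy
      · have h1 := h.rank _ _ hP'.1
        have h2 := ih hP'.2 hx w List.mem_cons_self
        omega
      · exact ih hP'.2 hx y hy

theorem maximal_last (h : Layered D lev rk B) {P : List ℕ} (hP : Maximal D P) {x : ℕ}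
    (hx : P.getLast? = some x) : ∀ u, ¬ Arc D x u := by
  intro u hu
  obtain ⟨hP1, hP2⟩ := hP
  have hun : u ∉ P := by
    intro h1
    have h2 := h.rank _ _ hu
    have h3 := rk_le_last h hP1.chain hx _ h1
    omega
  have hQ : IsPath D (P ++ [u]) := by
    refine ⟨by simp, ?_, ?_, ?_⟩
    · intro v hv
      rcases List.mem_append.1 hv with hv | hv
      · exact hP1.lt v hv
      · rw [List.mem_singleton] at hv
        rw [hv]
        exact hu.2.1
    · rw [List.nodup_append]
      refine ⟨hP1.nodup, by simp, ?_⟩
      intro a ha b hb
      rw [List.mem_singleton] at hb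
      rw [hb]
      rintro rfl
      exact hun ha
    · rw [List.isChain_append]
      refine ⟨hP1.chain, by simp, ?_⟩
      intro a ha b hb
      rw [hx] at ha
      simp only [Option.mem_def, Option.some.injEq, List.head?_cons] at ha hb
      subst ha hb
      exact hu
  have h3 := hP2 _ hQ ⟨fun v hv => List.mem_append_left _ hv, fun a ha => by
    rw [arcs_append_singleton _ _ _ hx]
    exact List.mem_append_left _ ha⟩
  exact hun (h3.1 u (by simp))

theorem countP_or_le {α : Type} (p q : α → Bool) (l : List α) :
    l.countP (fun a => p a || q a) ≤ l.countP p + l.countP q := by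
  induction l with
  | nil => simp
  | cons a l ih =>
    simp only [List.countP_cons]
    cases p a <;> cases q a <;> simp <;> omega

theorem head_of_arc_first {Q : List ℕ} (hQ : Q.IsChain (Arc D)) {a : ℕ × ℕ} (ha : a ∈ arcs Q)
    (h : ∀ u, ¬ Arc D u a.1) : Q.head? = some a.1 := by
  induction Q with
  | nil => simp [arcs] at ha
  | cons x Q ih =>
    cases Q with
    | nil => simp [arcs] at ha
    | cons y Q =>
      rw [arcs_cons_cons, List.mem_cons] at ha
      rw [List.isChain_cons_cons] at hQ
      rcases ha with rfl | ha
      · rfl
      · have h1 := ih hQ.2 ha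
        simp only [List.head?_cons, Option.some.injEq] at h1
        rw [← h1] at h
        exact absurd hQ.1 (h x)

theorem last_of_arc_last {Q : List ℕ} (hQ : Q.IsChain (Arc D)) {a : ℕ × ℕ} (ha : a ∈ arcs Q)
    (h : ∀ u, ¬ Arc D a.2 u) : Q.getLast? = some a.2 := by
  induction Q with
  | nil => simp [arcs] at ha
  | cons x Q ih =>
    cases Q with
    | nil => simp [arcs] at ha
    | cons y Q =>
      rw [arcs_cons_cons, List.mem_cons] at ha
      rw [List.isChain_cons_cons] at hQ
      rw [List.getLast?_cons_cons]
      rcases ha with rfl | ha
      · cases Q with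
        | nil => rfl
        | cons z Q =>
          exact absurd (List.isChain_cons_cons.1 hQ.2).1 (h z)
      · exact ih hQ.2 ha

theorem eaPath_le (h : Layered D lev rk B) {P : List ℕ} (hP : Maximal D P) :
    eaPath D P ≤ B + 2 := by
  by_cases hne : arcs P = []
  · have h1 : {m | ∃ s, s.length = m ∧ Identifying D P s} = ∅ := by
      rw [Set.eq_empty_iff_forall_notMem]
      rintro m ⟨s, _, hs1, hs2, _⟩
      rw [hne] at hs2
      exact hs1 (List.sublist_nil.1 hs2)
    unfold eaPath
    rw [h1, Nat.sInf_empty]
    exact Nat.zero_le _
  · obtain ⟨x, y, P', rfl⟩ : ∃ x y P', P = x :: y :: P' := by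
      match P, hne with
      | x :: y :: P', _ => exact ⟨x, y, P', rfl⟩
      | [x], h => simp [arcs] at h
      | [], h => simp [arcs] at h
    obtain ⟨t, ht⟩ : ∃ t, (x :: y :: P').getLast? = some t := by
      cases h1 : (x :: y :: P').getLast? with
      | none => simp at h1
      | some t => exact ⟨t, rfl⟩
    obtain ⟨e, he, het⟩ : ∃ e ∈ arcs (x :: y :: P'), e.2 = t := by
      have key : ∀ (P : List ℕ) (x y : ℕ), (x :: y :: P).getLast? = some t →
          ∃ e ∈ arcs (x :: y :: P), e.2 = t := by
        intro P
        induction P with
        | nil =>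
          intro x y h1
          refine ⟨(x, y), by simp [arcs], ?_⟩
          simpa using h1
        | cons z P ih =>
          intro x y h1
          rw [List.getLast?_cons_cons] at h1
          obtain ⟨e, he, het⟩ := ih y z h1
          exact ⟨e, by rw [arcs_cons_cons]; exact List.mem_cons_of_mem _ he, het⟩
      exact key P' x y ht
    set s := (arcs (x :: y :: P')).filter (fun a => decide (lev a.1 < lev a.2) ||
      (decide (a = (x, y)) || decide (a = e))) with hs
    have hmem : ∀ a, a ∈ s ↔ a ∈ arcs (x :: y :: P') ∧
        (lev a.1 < lev a.2 ∨ a = (x, y) ∨ a = e) := by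
      intro a
      rw [hs, List.mem_filter]
      simp
    have hlen : s.length ≤ B + 2 := by
      rw [hs, ← List.countP_eq_length_filter]
      refine (countP_or_le _ _ _).trans ?_
      have h1 := countP_or_le (fun a : ℕ × ℕ => decide (a = (x, y))) (fun a => decide (a = e))
        (arcs (x :: y :: P'))
      have h2 := countP_switch h hP.1.chain ht
      have h3 := h.bound t
      have hnd := arcs_nodup hP.1.nodup
      have h4 : ∀ b : ℕ × ℕ, (arcs (x :: y :: P')).countP (fun a => decide (a = b)) ≤ 1 := by
        intro b
        have := List.nodup_iff_count_le_one.1 hnd b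
        rw [List.count] at this
        refine le_trans (le_of_eq ?_) this
        apply List.countP_congr
        intro a _
        simp
      have h5 := h4 (x, y)
      have h6 := h4 e
      omega
    have hid : Identifying D (x :: y :: P') s := by
      refine ⟨?_, List.filter_sublist, ?_⟩
      · intro h1
        have : (x, y) ∈ s := (hmem _).2 ⟨by rw [arcs_cons_cons]; exact List.mem_cons_self,
          Or.inr (Or.inl rfl)⟩
        rw [h1] at this
        simp at this
      · intro Q hQ hsQ
        have hsub := hsQ.subset
        have h1 : Q.head? = some x := by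
          have h2 : (x, y) ∈ arcs Q := hsub ((hmem _).2 ⟨by
            rw [arcs_cons_cons]; exact List.mem_cons_self, Or.inr (Or.inl rfl)⟩)
          exact head_of_arc_first hQ.chain h2 (maximal_head h hP rfl)
        have h2 : Q.getLast? = some t := by
          have h3 : e ∈ arcs Q := hsub ((hmem _).2 ⟨he, Or.inr (Or.inr rfl)⟩)
          rw [← het]
          exact last_of_arc_last hQ.chain h3 (maximal_last h hP (by rw [ht, het]))
        have h3 : x :: y :: P' = Q := by
          refine path_uniq h hP.1.chain hQ.chain rfl h1 ht h2 ?_
          intro a ha ha'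
          exact hsub ((hmem _).2 ⟨ha, Or.inl ha'⟩)
        rw [h3]
        exact ⟨fun _ h => h, fun _ h => h⟩
    have h9 : s.length ∈ {m | ∃ s, s.length = m ∧ Identifying D (x :: y :: P') s} :=
      ⟨s, rfl, hid⟩
    exact (Nat.sInf_le h9).trans hlen

/-- **Layered digraphs have bounded ear anonymity.** -/
theorem ea_le (h : Layered D lev rk B) : ea D ≤ B + 2 := by
  unfold ea
  apply csSup_le'
  rintro m ⟨P, hP, rfl⟩
  exact eaPath_le h hP

end Pool.Agent.Helper80K.Ea
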