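import Pool.Agent.Helper80K.Ea.Corr

/-!
# From cliques to linkages of the labelled digraph
-/

namespace Pool.Agent.Helper80K.Ea

open Pool.Agent.R550.DS Pool.Agent.R550.W1

variable {n k : ℕ} {x : List Bool}

/-- the vertices of a chain from position `a` to position `b` -/
def seg (e c a b : ℕ) : List Lb := (List.range' a (b + 1 - a)).map fun p => ((e, c), p)

theorem mem_seg {e c a b : ℕ} {y : Lb} : y ∈ seg e c a b ↔ y.1 = (e, c) ∧ a ≤ y.2 ∧ y.2 ≤ b := by
  unfold seg
  rw [List.mem_map]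
  constructor
  · rintro ⟨p, hp, rfl⟩
    rw [List.mem_range'_1] at hp
    exact ⟨rfl, by simp only; omega, by simp only; omega⟩
  · rintro ⟨h1, h2, h3⟩
    refine ⟨y.2, ?_, ?_⟩
    · rw [List.mem_range'_1]
      omega
    · rw [← h1]

theorem seg_walk {e c : ℕ} {b t : Lb} {p : List Lb}
    (harr : ∀ p, Arr n k x ((e, c), p) ((e, c), p + 1)) (q : ℕ) (hp : W (Arr n k x) t b p)
    (m a : ℕ) (ha : a + m = q) (hb : Arr n k x ((e, c), q) b) :
    W (Arr n k x) t ((e, c), a) (seg e c a q ++ p) := by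
  induction m generalizing a with
  | zero =>
    have : a = q := by omega
    subst this
    have e1 : seg e c a a = [((e, c), a)] := by
      unfold seg
      have : a + 1 - a = 1 := by omega
      rw [this]
      rfl
    rw [e1]
    exact W.cons hb hp
  | succ m ih =>
    have h1 := ih (a + 1) (by omega)
    have e1 : seg e c a q = ((e, c), a) :: seg e c (a + 1) q := by
      unfold seg
      have : q + 1 - a = (q + 1 - (a + 1)) + 1 := by omega
      rw [this, List.range'_succ]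
      rfl
    rw [e1]
    exact W.cons (harr a) h1

theorem seg_end {e c : ℕ} (harr : ∀ p, Arr n k x ((e, c), p) ((e, c), p + 1)) (q : ℕ)
    (m a : ℕ) (ha : a + m = q) : W (Arr n k x) ((e, c), q) ((e, c), a) (seg e c a q) := by
  induction m generalizing a with
  | zero =>
    have : a = q := by omega
    subst this
    have e1 : seg e c a a = [((e, c), a)] := by
      unfold seg
      have : a + 1 - a = 1 := by omega
      rw [this]
      rfl
    rw [e1]
    exact W.nil
  | succ m ih =>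
    have h1 := ih (a + 1) (by omega)
    have e1 : seg e c a q = ((e, c), a) :: seg e c (a + 1) q := by
      unfold seg
      have : q + 1 - a = (q + 1 - (a + 1)) + 1 := by omega
      rw [this, List.range'_succ]
      rfl
    rw [e1]
    exact W.cons (harr a) h1

/-- the values -/
def val (k : ℕ) (f : ℕ → ℕ) (c : ℕ) : ℕ := if c < k then f c else f (c - k)

/-- the paths -/
def PP (n k : ℕ) (f : ℕ → ℕ) (a : Lb) : List Lb :=
  if a.1.1 = 0 then
    seg 1 a.1.2 0 (val k f a.1.2 * (k + 2)) ++ seg 2 a.1.2 (val k f a.1.2 + 2) (n + 1)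
  else if a.1.1 = 1 then
    seg 0 a.1.2 0 (val k f a.1.2) ++
      seg 1 a.1.2 (val k f a.1.2 * (k + 2) + k + 1) (n * (k + 2))
  else if a.1.1 = 2 then
    [((3, a.1.2), 0), ((0, a.1.2), val k f a.1.2 + 1), ((2, a.1.2), val k f a.1.2 + 1),
      ((4, a.1.2), 0)]
  else
    [((5, a.1.2), a.2), ((1, a.1.2), f a.1.2 * (k + 2) + a.2 + 1),
      ((1, k + a.2), f a.2 * (k + 2) + a.1.2 + 1), ((6, a.1.2), a.2)]

/-- the path to which a vertex belongs -/
def own (k : ℕ) (f : ℕ → ℕ) (b : Lb) : Lb :=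
  if b.1.1 = 0 then (if b.2 ≤ val k f b.1.2 then ((1, b.1.2), 0) else ((2, b.1.2), 0))
  else if b.1.1 = 1 then
    (if b.2 ≤ val k f b.1.2 * (k + 2) then ((0, b.1.2), 0)
    else if val k f b.1.2 * (k + 2) + k + 1 ≤ b.2 then ((1, b.1.2), 0)
    else if b.1.2 < k then ((3, b.1.2), b.2 - val k f b.1.2 * (k + 2) - 1)
    else ((3, b.2 - val k f b.1.2 * (k + 2) - 1), b.1.2 - k))
  else if b.1.1 = 2 then (if val k f b.1.2 + 2 ≤ b.2 then ((0, b.1.2), 0) else ((2, b.1.2), 0))
  else if b.1.1 = 3 then ((2, b.1.2), 0)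
  else if b.1.1 = 4 then ((2, b.1.2), 0)
  else ((3, b.1.2), b.2)

theorem val_lt {f : ℕ → ℕ} (hf : ∀ i < k, f i < n) {c : ℕ} (hc : c < 2 * k) : val k f c < n := by
  unfold val
  split_ifs with h
  · exact hf c h
  · exact hf _ (by omega)

theorem PP_facts {f : ℕ → ℕ} (hf : ∀ i < k, f i < n)
    (hal : ∀ i < k, ∀ j < k, alw n x i j (f i) (f j) = true) {a : Lb} (ha : a ∈ ks k) :
    W (Arr n k x) (tgt n k a) (src a) (PP n k f a) ∧
      ∀ b ∈ PP n k f a, b ∈ vs n k ∧ own k f b = a := by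
  obtain ⟨⟨e, c⟩, j⟩ := a
  rw [mem_ks] at ha
  simp only at ha
  rcases ha with ⟨rfl, hc, rfl⟩ | ⟨rfl, hc, rfl⟩ | ⟨rfl, hc, rfl⟩ | ⟨rfl, hi, hj⟩
  · have hv := val_lt hf hc
    have hm : val k f c * (k + 2) + (k + 2) ≤ n * (k + 2) := mul_lem hv
    have e0 : PP n k f ((0, c), 0) = seg 1 c 0 (val k f c * (k + 2)) ++
        seg 2 c (val k f c + 2) (n + 1) := rfl
    rw [e0]
    refine ⟨?_, ?_⟩
    · refine seg_walk (fun p => Arr.cc c p _ rfl) _ ?_ (val k f c * (k + 2)) 0 (by omega)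
        (Arr.cf c _ (val k f c + 2) _ rfl rfl)
      exact seg_end (fun p => Arr.ff c p _ rfl) _ (n + 1 - (val k f c + 2)) _ (by omega)
    · intro b hb
      obtain ⟨⟨e', c'⟩, p⟩ := b
      rw [List.mem_append, mem_seg, mem_seg] at hb
      simp only [Prod.mk.injEq] at hb
      rw [mem_vs]
      rcases hb with ⟨⟨rfl, rfl⟩, h1, h2⟩ | ⟨⟨rfl, rfl⟩, h1, h2⟩
      · refine ⟨Or.inr (Or.inl ⟨rfl, hc, by simp only; omega⟩), ?_⟩
        unfold own
        simp only [one_ne_zero, if_false, if_true, if_pos h2]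
      · refine ⟨Or.inr (Or.inr (Or.inl ⟨rfl, hc, h2⟩)), ?_⟩
        unfold own
        simp [h1]
  · have hv := val_lt hf hc
    have hm : val k f c * (k + 2) + (k + 2) ≤ n * (k + 2) := mul_lem hv
    have e0 : PP n k f ((1, c), 0) = seg 0 c 0 (val k f c) ++
        seg 1 c (val k f c * (k + 2) + k + 1) (n * (k + 2)) := rfl
    rw [e0]
    refine ⟨?_, ?_⟩
    · refine seg_walk (fun p => Arr.dd c p _ rfl) _ ?_ (val k f c) 0 (by omega)
        (Arr.dc c _ (val k f c * (k + 2) + k + 1) rfl)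
      exact seg_end (fun p => Arr.cc c p _ rfl) _
        (n * (k + 2) - (val k f c * (k + 2) + k + 1)) _ (by omega)
    · intro b hb
      obtain ⟨⟨e', c'⟩, p⟩ := b
      rw [List.mem_append, mem_seg, mem_seg] at hb
      simp only [Prod.mk.injEq] at hb
      rw [mem_vs]
      rcases hb with ⟨⟨rfl, rfl⟩, h1, h2⟩ | ⟨⟨rfl, rfl⟩, h1, h2⟩
      · refine ⟨Or.inl ⟨rfl, hc, by simp only; omega⟩, ?_⟩
        unfold own
        simp [h2]
      · refine ⟨Or.inr (Or.inl ⟨rfl, hc, h2⟩), ?_⟩
        unfold own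
        simp only [one_ne_zero, if_false, if_true]
        rw [if_neg (by omega), if_pos h1]
  · have hv := val_lt hf hc
    have e0 : PP n k f ((2, c), 0) = [((3, c), 0), ((0, c), val k f c + 1),
      ((2, c), val k f c + 1), ((4, c), 0)] := rfl
    rw [e0]
    refine ⟨W.cons (Arr.wd c _) (W.cons (Arr.df c _) (W.cons (Arr.fw c _) W.nil)), ?_⟩
    intro b hb
    simp only [List.mem_cons, List.not_mem_nil, or_false] at hb
    rw [mem_vs]
    rcases hb with rfl | rfl | rfl | rfl
    · exact ⟨Or.inr (Or.inr (Or.inr (Or.inl ⟨rfl, hc, rfl⟩))), rfl⟩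
    · refine ⟨Or.inl ⟨rfl, hc, hv⟩, ?_⟩
      unfold own
      simp
    · refine ⟨Or.inr (Or.inr (Or.inl ⟨rfl, hc, by simp only; omega⟩)), ?_⟩
      unfold own
      simp
    · exact ⟨Or.inr (Or.inr (Or.inr (Or.inr (Or.inl ⟨rfl, hc, rfl⟩)))), rfl⟩
  · have hv := hf c hi
    have hv' := hf j hj
    have hm : f c * (k + 2) + (k + 2) ≤ n * (k + 2) := mul_lem hv
    have hm' : f j * (k + 2) + (k + 2) ≤ n * (k + 2) := mul_lem hv'
    have e0 : PP n k f ((3, c), j) = [((5, c), j), ((1, c), f c * (k + 2) + j + 1),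
      ((1, k + j), f j * (k + 2) + c + 1), ((6, c), j)] := rfl
    rw [e0]
    refine ⟨W.cons (Arr.sc c j _ _ hi hj rfl) (W.cons (Arr.rr c j _ _ _ _ _ hi hj rfl rfl rfl
      (hal c hi j hj)) (W.cons (Arr.ct c j _ _ _ hi hj rfl rfl) W.nil)), ?_⟩
    have v1 : val k f c = f c := by
      unfold val
      rw [if_pos hi]
    have v2 : val k f (k + j) = f j := by
      unfold val
      rw [if_neg (by omega)]
      congr 1
      omega
    intro b hb
    simp only [List.mem_cons, List.not_mem_nil, or_false] at hb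
    rw [mem_vs]
    rcases hb with rfl | rfl | rfl | rfl
    · exact ⟨Or.inr (Or.inr (Or.inr (Or.inr (Or.inr ⟨Or.inl rfl, hi, hj⟩)))), rfl⟩
    · refine ⟨Or.inr (Or.inl ⟨rfl, by simp only; omega, by simp only; omega⟩), ?_⟩
      unfold own
      simp only [one_ne_zero, if_false, if_true, v1]
      rw [if_neg (by omega), if_neg (by omega), if_pos hi]
      congr 1
      omega
    · refine ⟨Or.inr (Or.inl ⟨rfl, by simp only; omega, by simp only; omega⟩), ?_⟩
      unfold own
      simp only [one_ne_zero, if_false, if_true, v2]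
      rw [if_neg (by omega), if_neg (by omega), if_neg (by omega)]
      have h3 : f j * (k + 2) + c + 1 - f j * (k + 2) - 1 = c := by omega
      have h4 : k + j - k = j := by omega
      rw [h3, h4]
    · exact ⟨Or.inr (Or.inr (Or.inr (Or.inr (Or.inr ⟨Or.inr rfl, hi, hj⟩)))), rfl⟩

/-- **From cliques to linkages.** -/
theorem lk_of_clique {f : ℕ → ℕ} (hf : ∀ i < k, f i < n)
    (hal : ∀ i < k, ∀ j < k, alw n x i j (f i) (f j) = true) : Lk n k x (PP n k f) where
  walk a ha := (PP_facts hf hal ha).1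
  mem a ha b hb := ((PP_facts hf hal ha).2 b hb).1
  disj a ha a' ha' hne b hb hb' := by
    have h1 := ((PP_facts hf hal ha).2 b hb).2
    have h2 := ((PP_facts hf hal ha').2 b hb').2
    exact hne (h1.symm.trans h2)

end Pool.Agent.Helper80K.Ea
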