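import Pool.Agent.Helper80K.Ea.Ear
import Pool.Agent.R550.W1.Clique

/-!
# The labelled digraph of the reduction
-/

namespace Pool.Agent.Helper80K.Ea

open Pool.Agent.R550.DS

/-- labels: kind, index, position -/
abbrev Lb : Type := (ℕ × ℕ) × ℕ

/-- the arcs -/
inductive Arr (n k : ℕ) (x : List Bool) : Lb → Lb → Prop
  | dd (c p q : ℕ) (h : q = p + 1) : Arr n k x ((0, c), p) ((0, c), q)
  | cc (c p q : ℕ) (h : q = p + 1) : Arr n k x ((1, c), p) ((1, c), q)
  | ff (c p q : ℕ) (h : q = p + 1) : Arr n k x ((2, c), p) ((2, c), q)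
  | dc (c p q : ℕ) (h : q = p * (k + 2) + k + 1) : Arr n k x ((0, c), p) ((1, c), q)
  | df (c p : ℕ) : Arr n k x ((0, c), p) ((2, c), p)
  | cf (c p q v : ℕ) (h : p = v * (k + 2)) (h' : q = v + 2) : Arr n k x ((1, c), p) ((2, c), q)
  | rr (i j v u p q d : ℕ) (hi : i < k) (hj : j < k) (hd : d = k + j)
      (h : p = v * (k + 2) + j + 1) (h' : q = u * (k + 2) + i + 1)
      (hal : alw n x i j v u = true) : Arr n k x ((1, i), p) ((1, d), q)
  | ct (i j u q d : ℕ) (hi : i < k) (hj : j < k) (hd : d = k + j)
      (h' : q = u * (k + 2) + i + 1) : Arr n k x ((1, d), q) ((6, i), j)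
  | fw (c p : ℕ) : Arr n k x ((2, c), p) ((4, c), 0)
  | wd (c p : ℕ) : Arr n k x ((3, c), 0) ((0, c), p)
  | sc (i j v p : ℕ) (hi : i < k) (hj : j < k) (h : p = v * (k + 2) + j + 1) :
      Arr n k x ((5, i), j) ((1, i), p)

/-- walks with the list of their vertices -/
inductive W {α : Type} (R : α → α → Prop) (b : α) : α → List α → Prop
  | nil : W R b b [b]
  | cons {a y : α} {p : List α} (h : R a y) (hp : W R b y p) : W R b a (a :: p)

namespace W

variable {α : Type} {R : α → α → Prop} {a b : α} {p : List α}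

theorem head_mem (h : W R b a p) : a ∈ p := by
  cases h <;> simp

theorem inv (h : W R b a p) : (a = b ∧ p = [a]) ∨ ∃ y p', R a y ∧ W R b y p' ∧ p = a :: p' := by
  cases h with
  | nil => exact Or.inl ⟨rfl, rfl⟩
  | cons h1 h2 => exact Or.inr ⟨_, _, h1, h2, rfl⟩

theorem head? (h : W R b a p) : p.head? = some a := by
  cases h <;> rfl

theorem getLast? (h : W R b a p) : p.getLast? = some b := by
  induction h with
  | nil => rfl
  | @cons a y p h1 h2 ih =>
    cases h2 with
    | nil => rfl
    | cons h3 h4 => rw [List.getLast?_cons_cons]; exact ih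

theorem isChain (h : W R b a p) : p.IsChain R := by
  induction h with
  | nil => simp
  | @cons a y p h1 h2 ih =>
    cases h2 with
    | nil => rw [List.isChain_cons_cons]; exact ⟨h1, ih⟩
    | cons h3 h4 => rw [List.isChain_cons_cons]; exact ⟨h1, ih⟩

theorem of_chain : ∀ {p : List α} {a : α}, p.IsChain R → p.head? = some a →
    p.getLast? = some b → W R b a p := by
  intro p
  induction p with
  | nil => intro a _ h; simp at h
  | cons z p ih =>
    intro a h1 h2 h3
    simp only [List.head?_cons, Option.some.injEq] at h2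
    subst h2
    cases p with
    | nil =>
      simp only [List.getLast?_singleton, Option.some.injEq] at h3
      subst h3
      exact W.nil
    | cons y p =>
      rw [List.isChain_cons_cons] at h1
      rw [List.getLast?_cons_cons] at h3
      exact W.cons h1.1 (ih h1.2 rfl h3)

end W

section

variable {n k : ℕ} {x : List Bool} {a b : Lb} {p : List Lb}

theorem sink (h : W (Arr n k x) b a p) (ha : a.1.1 = 4 ∨ a.1.1 = 6) : a = b := by
  cases h with
  | nil => rfl
  | cons h1 h2 => cases h1 <;> simp at ha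

theorem from2 (h : W (Arr n k x) b a p) (ha : a.1.1 = 2) :
    (b.1.1 = 2 ∨ b.1.1 = 4) ∧ b.1.2 = a.1.2 := by
  induction h with
  | nil => exact ⟨Or.inl ha, rfl⟩
  | @cons a y p h1 h2 ih =>
    cases h1 with
    | ff c p q h =>
      have := ih rfl
      exact this
    | fw c p =>
      have := sink h2 (Or.inl rfl)
      subst this
      exact ⟨Or.inr rfl, rfl⟩
    | dd | cc | dc | df | cf | rr | ct | wd | sc => simp at ha

theorem from1up (h : W (Arr n k x) b a p) (ha : a.1.1 = 1) (hk : k ≤ a.1.2) :
    (b.1.1 = 1 ∧ b.1.2 = a.1.2) ∨ ((b.1.1 = 2 ∨ b.1.1 = 4) ∧ b.1.2 = a.1.2) ∨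
      (b.1.1 = 6 ∧ a.1.2 = k + b.2) := by
  induction h with
  | nil => exact Or.inl ⟨ha, rfl⟩
  | @cons a y p h1 h2 ih =>
    cases h1 with
    | cc c p q h => exact ih rfl hk
    | cf c p q v h h' =>
      have := from2 h2 rfl
      exact Or.inr (Or.inl this)
    | rr i j v u p q d hi hj hd h h' hal =>
      simp only at hk
      omega
    | ct i j u q d hi hj hd h' =>
      have := sink h2 (Or.inr rfl)
      subst this
      exact Or.inr (Or.inr ⟨rfl, hd⟩)
    | dd | ff | dc | df | fw | wd | sc => simp at ha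

theorem lemF (N c : ℕ) (h : W (Arr n k x) b a p) (hb : b = ((2, c), N)) (q : ℕ)
    (ha : a = ((2, c), q)) : ∀ r, q ≤ r → r ≤ N → ((2, c), r) ∈ p := by
  induction h generalizing q with
  | nil =>
    intro r h1 h2
    rw [ha] at hb
    simp only [Prod.mk.injEq, true_and] at hb
    have : r = q := by omega
    rw [this, ha]
    exact List.mem_singleton_self _
  | @cons a y p h1 h2 ih =>
    intro r h3 h4
    rcases eq_or_lt_of_le h3 with h5 | h5
    · rw [← h5, ha]
      exact List.mem_cons_self
    · cases h1 with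
      | ff c' p' q' h =>
        simp only [Prod.mk.injEq, true_and] at ha
        obtain ⟨rfl, rfl⟩ := ha
        subst h
        exact List.mem_cons_of_mem _ (ih (p' + 1) rfl r h5 h4)
      | fw c' p' =>
        have := sink h2 (Or.inl rfl)
        rw [hb] at this
        simp at this
      | dd | cc | dc | df | cf | rr | ct | wd | sc => simp at ha

theorem lemQ (N c : ℕ) (h : W (Arr n k x) b a p) (hb : b = ((2, c), N)) (q : ℕ)
    (ha : a = ((1, c), q)) : ∃ v, q ≤ v * (k + 2) ∧
      (∀ r, q ≤ r → r ≤ v * (k + 2) → ((1, c), r) ∈ p) ∧ ((2, c), v + 2) ∈ p ∧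
      ∀ r, v + 2 ≤ r → r ≤ N → ((2, c), r) ∈ p := by
  induction h generalizing q with
  | nil =>
    rw [ha] at hb
    simp at hb
  | @cons a y p h1 h2 ih =>
    cases h1 with
    | cc c' p' q' h =>
      simp only [Prod.mk.injEq, true_and] at ha
      obtain ⟨rfl, rfl⟩ := ha
      subst h
      obtain ⟨v, h3, h4, h5, h6⟩ := ih (p' + 1) rfl
      refine ⟨v, by omega, ?_, List.mem_cons_of_mem _ h5, fun r h7 h8 =>
        List.mem_cons_of_mem _ (h6 r h7 h8)⟩
      intro r h7 h8
      rcases eq_or_lt_of_le h7 with h9 | h9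
      · rw [← h9]
        exact List.mem_cons_self
      · exact List.mem_cons_of_mem _ (h4 r h9 h8)
    | cf c' p' q' v h h' =>
      simp only [Prod.mk.injEq, true_and] at ha
      obtain ⟨rfl, rfl⟩ := ha
      refine ⟨v, h.le, ?_, ?_, ?_⟩
      · intro r h7 h8
        have : r = p' := by omega
        rw [this]
        exact List.mem_cons_self
      · rw [← h']
        exact List.mem_cons_of_mem _ h2.head_mem
      · intro r h7 h8
        refine List.mem_cons_of_mem _ (lemF N _ h2 hb q' rfl r (by omega) h8)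
    | rr i j v u p' q' d hi hj hd h h' hal =>
      exfalso
      have h3 := from1up h2 rfl (show k ≤ d by omega)
      rw [hb] at h3
      simp only [Prod.mk.injEq] at ha h3
      omega
    | ct i j u q' d hi hj hd h' =>
      have := sink h2 (Or.inr rfl)
      rw [hb] at this
      simp at this
    | dd | ff | dc | df | fw | wd | sc => simp at ha

theorem lemC (N c : ℕ) (h : W (Arr n k x) b a p) (hb : b = ((1, c), N)) (q : ℕ)
    (ha : a = ((1, c), q)) : ∀ r, q ≤ r → r ≤ N → ((1, c), r) ∈ p := by
  induction h generalizing q with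
  | nil =>
    intro r h1 h2
    rw [ha] at hb
    simp only [Prod.mk.injEq, true_and] at hb
    have : r = q := by omega
    rw [this, ha]
    exact List.mem_singleton_self _
  | @cons a y p h1 h2 ih =>
    intro r h3 h4
    rcases eq_or_lt_of_le h3 with h5 | h5
    · rw [← h5, ha]
      exact List.mem_cons_self
    · cases h1 with
      | cc c' p' q' h =>
        simp only [Prod.mk.injEq, true_and] at ha
        obtain ⟨rfl, rfl⟩ := ha
        subst h
        exact List.mem_cons_of_mem _ (ih (p' + 1) rfl r h5 h4)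
      | cf c' p' q' v h h' =>
        have := from2 h2 rfl
        rw [hb] at this
        simp at this
      | rr i j v u p' q' d hi hj hd h h' hal =>
        exfalso
        have h3 := from1up h2 rfl (show k ≤ d by omega)
        rw [hb] at h3
        simp only [Prod.mk.injEq] at ha h3
        omega
      | ct i j u q' d hi hj hd h' =>
        have := sink h2 (Or.inr rfl)
        rw [hb] at this
        simp at this
      | dd | ff | dc | df | fw | wd | sc => simp at ha

theorem lemT (N c : ℕ) (h : W (Arr n k x) b a p) (hb : b = ((1, c), N)) (q : ℕ)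
    (ha : a = ((0, c), q)) : ∃ v, q ≤ v ∧ (∀ r, q ≤ r → r ≤ v → ((0, c), r) ∈ p) ∧
      ∀ r, v * (k + 2) + k + 1 ≤ r → r ≤ N → ((1, c), r) ∈ p := by
  induction h generalizing q with
  | nil =>
    rw [ha] at hb
    simp at hb
  | @cons a y p h1 h2 ih =>
    cases h1 with
    | dd c' p' q' h =>
      simp only [Prod.mk.injEq, true_and] at ha
      obtain ⟨rfl, rfl⟩ := ha
      subst h
      obtain ⟨v, h3, h4, h5⟩ := ih (p' + 1) rfl
      refine ⟨v, by omega, ?_, fun r h7 h8 => List.mem_cons_of_mem _ (h5 r h7 h8)⟩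
      intro r h7 h8
      rcases eq_or_lt_of_le h7 with h9 | h9
      · rw [← h9]
        exact List.mem_cons_self
      · exact List.mem_cons_of_mem _ (h4 r h9 h8)
    | dc c' p' q' h =>
      simp only [Prod.mk.injEq, true_and] at ha
      obtain ⟨rfl, rfl⟩ := ha
      refine ⟨p', le_rfl, ?_, ?_⟩
      · intro r h7 h8
        have : r = p' := by omega
        rw [this]
        exact List.mem_cons_self
      · intro r h7 h8
        refine List.mem_cons_of_mem _ (lemC N _ h2 hb q' rfl r (by omega) h8)
    | df c' p' =>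
      have := from2 h2 rfl
      rw [hb] at this
      simp at this
    | cc | ff | cf | rr | ct | fw | wd | sc => simp at ha

theorem lemW (c : ℕ) (h : W (Arr n k x) b a p) (hb : b = ((4, c), 0)) (q : ℕ)
    (ha : a = ((0, c), q)) : (∃ w, q ≤ w ∧ ((2, c), w) ∈ p) ∨
      ∃ v, q ≤ v ∧ ((1, c), v * (k + 2) + k + 1) ∈ p := by
  induction h generalizing q with
  | nil =>
    rw [ha] at hb
    simp at hb
  | @cons a y p h1 h2 ih =>
    cases h1 with
    | dd c' p' q' h =>
      simp only [Prod.mk.injEq, true_and] at ha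
      obtain ⟨rfl, rfl⟩ := ha
      subst h
      rcases ih (p' + 1) rfl with ⟨w, h3, h4⟩ | ⟨v, h3, h4⟩
      · exact Or.inl ⟨w, by omega, List.mem_cons_of_mem _ h4⟩
      · exact Or.inr ⟨v, by omega, List.mem_cons_of_mem _ h4⟩
    | dc c' p' q' h =>
      simp only [Prod.mk.injEq, true_and] at ha
      obtain ⟨rfl, rfl⟩ := ha
      subst h
      exact Or.inr ⟨p', le_rfl, List.mem_cons_of_mem _ h2.head_mem⟩
    | df c' p' =>
      simp only [Prod.mk.injEq, true_and] at ha
      obtain ⟨rfl, rfl⟩ := ha
      exact Or.inl ⟨p', le_rfl, List.mem_cons_of_mem _ h2.head_mem⟩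
    | cc | ff | cf | rr | ct | fw | wd | sc => simp at ha

theorem lemR (i j : ℕ) (hi : i < k) (h : W (Arr n k x) b a p) (hb : b = ((6, i), j)) (q : ℕ)
    (ha : a = ((1, i), q)) : ∃ v u, q ≤ v * (k + 2) + j + 1 ∧
      ((1, i), v * (k + 2) + j + 1) ∈ p ∧ ((1, k + j), u * (k + 2) + i + 1) ∈ p ∧
      alw n x i j v u = true := by
  induction h generalizing q with
  | nil =>
    rw [ha] at hb
    simp at hb
  | @cons a y p h1 h2 ih =>
    cases h1 with
    | cc c' p' q' h =>
      simp only [Prod.mk.injEq, true_and] at ha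
      obtain ⟨rfl, rfl⟩ := ha
      subst h
      obtain ⟨v, u, h3, h4, h5, h6⟩ := ih (p' + 1) rfl
      exact ⟨v, u, by omega, List.mem_cons_of_mem _ h4, List.mem_cons_of_mem _ h5, h6⟩
    | cf c' p' q' v h h' =>
      have := from2 h2 rfl
      rw [hb] at this
      simp at this
    | rr i' j' v u p' q' d hi' hj' hd h h' hal =>
      have h3 := from1up h2 rfl (show k ≤ d by omega)
      rw [hb] at h3
      simp only [Prod.mk.injEq, true_and] at ha h3
      obtain ⟨rfl, rfl⟩ := ha
      have hj : j' = j := by omega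
      subst hj
      refine ⟨v, u, h.le, ?_, ?_, hal⟩
      · rw [← h]
        exact List.mem_cons_self
      · have := h2.head_mem
        rw [hd, h'] at this
        exact List.mem_cons_of_mem _ this
    | ct i' j' u q' d hi' hj' hd h' =>
      simp only [Prod.mk.injEq, true_and] at ha
      omega
    | dd | ff | dc | df | fw | wd | sc => simp at ha

end

end Pool.Agent.Helper80K.Ea
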