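import Pool.Agent.Helper80K.Ea.Red
import Pool.Agent.R550.W1.Wrap
import Pool.Agent.H557R2.FptDec

/-!
# The reduction is computable in polynomial time, and running times
-/

namespace Pool.Agent.Helper80K.Ea

open Turing Pool.Agent.NPC Pool.Agent.R550.DS Pool.Agent.R550.W1 Pool.Agent.H557R2.Fpt
  Pool.Agent.H642R2.TMSim

section

variable {α : Type} [TEnc α]

theorem poly_T {n k : α → ℕ} {x : α → List Bool} {a b : α → Lb} (hn : NPC.Poly n)
    (hk : NPC.Poly k) (hx : NPC.Poly x) (ha : NPC.Poly a) (hb : NPC.Poly b) :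
    NPC.Poly (fun t => T (n t) (k t) (x t) (a t) (b t)) := by
  unfold T
  have h1 : NPC.Poly (fun t => alw (n t) (x t) (a t).1.2 ((b t).1.2 - k t) ((a t).2 / (k t + 2))
      ((b t).2 / (k t + 2))) := poly_alw hn hx (by fun_prop) (by fun_prop) (by fun_prop)
        (by fun_prop)
  fun_prop

theorem poly_cnt {n k : α → ℕ} {c : α → ℕ × ℕ} (hn : NPC.Poly n)
    (hk : NPC.Poly k) (hc : NPC.Poly c) :
    NPC.Poly (fun t => cnt (n t) (k t) (c t)) := by
  unfold cnt
  fun_prop

theorem upoly_cnt : UPoly (fun p : Inp × (ℕ × ℕ) => cnt p.1.1.length p.1.2.2.length p.2) := by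
  have hk : UPoly (fun p : Inp × (ℕ × ℕ) => p.1.2.2.length) := UPoly.length (by fun_prop)
  have hn : UPoly (fun p : Inp × (ℕ × ℕ) => p.1.1.length) := UPoly.length (by fun_prop)
  refine UPoly.of_le (n := fun p : Inp × (ℕ × ℕ) => p.1.1.length * (p.1.2.2.length + 2) +
    (p.1.1.length + p.1.2.2.length + 2))
    (poly_cnt hn.toPoly hk.toPoly (by fun_prop)) ?_ (fun p => ?_)
  · exact UPoly.add (UPoly.mul hn (UPoly.add hk (UPoly.const 2)))
      (UPoly.add (UPoly.add hn hk) (UPoly.const 2))
  · unfold cnt
    split_ifs <;> omega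

theorem poly_vs : NPC.Poly (fun p : Inp => vs p.1.length p.2.2.length) := by
  have hk : UPoly (fun p : Inp => p.2.2.length) := UPoly.length (by fun_prop)
  unfold vs
  refine poly_blk (cnt := fun (p : Inp) (c : ℕ × ℕ) => cnt p.1.length p.2.2.length c) ?_ upoly_cnt
  refine NPC.Poly.append ?_ ?_
  · refine Pool.Agent.R550.W1.poly_product (NPC.Poly.const _) ?_
    exact (UPoly.mul (UPoly.const 2) hk).range
  · exact Pool.Agent.R550.W1.poly_product (NPC.Poly.const _) hk.range

theorem poly_ks : NPC.Poly (fun p : Inp => ks p.2.2.length) := by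
  have hk : UPoly (fun p : Inp => p.2.2.length) := UPoly.length (by fun_prop)
  unfold ks
  refine poly_blk (cnt := fun (p : Inp) (c : ℕ × ℕ) => if c.1 = 3 then p.2.2.length else 1) ?_ ?_
  · refine NPC.Poly.append ?_ ?_
    · refine Pool.Agent.R550.W1.poly_product (NPC.Poly.const _) ?_
      exact (UPoly.mul (UPoly.const 2) hk).range
    · exact Pool.Agent.R550.W1.poly_product (NPC.Poly.const _) hk.range
  · have hk' : UPoly (fun p : Inp × (ℕ × ℕ) => p.1.2.2.length) := UPoly.length (by fun_prop)
    refine UPoly.of_le (n := fun p : Inp × (ℕ × ℕ) => p.1.2.2.length + 1) ?_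
      (UPoly.add hk' (UPoly.const 1)) (fun p => ?_)
    · have := hk'.toPoly
      fun_prop
    · split_ifs <;> omega

theorem poly_src {a : α → Lb} (ha : NPC.Poly a) : NPC.Poly (fun t => src (a t)) := by
  unfold src
  fun_prop

theorem poly_tgt {n k : α → ℕ} {a : α → Lb} (hn : NPC.Poly n) (hk : NPC.Poly k)
    (ha : NPC.Poly a) : NPC.Poly (fun t => tgt (n t) (k t) (a t)) := by
  unfold tgt
  fun_prop

theorem poly_ix {l : α → List Lb} {a : α → Lb} (hl : NPC.Poly l) (ha : NPC.Poly a) :
    NPC.Poly (fun t => ix (l t) (a t)) := by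
  unfold ix
  fun_prop

end

/-- the reduction for an input with `n` vertices -/
def redI (p : Inp) : Dig × List (ℕ × ℕ) :=
  (DD p.1.length p.2.2.length p.2.1, SS p.1.length p.2.2.length)

theorem poly_redI : NPC.Poly redI := by
  unfold redI DD SS
  have hk : NPC.Poly (fun p : Inp => p.2.2.length) := by fun_prop
  have hn : NPC.Poly (fun p : Inp => p.1.length) := by fun_prop
  refine NPC.Poly.pair ?_ ?_
  · refine poly_mkG (t := fun (p : Inp) a b => T p.1.length p.2.2.length p.2.1 a b) poly_vs ?_
    exact poly_T (by fun_prop) (by fun_prop) (by fun_prop) (by fun_prop) (by fun_prop)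
  · refine NPC.Poly.map (F := fun (p : Inp) (a : Lb) => (ix (vs p.1.length p.2.2.length) (src a),
      ix (vs p.1.length p.2.2.length) (tgt p.1.length p.2.2.length a))) poly_ks ?_
    have h1 : NPC.Poly (fun p : Inp × Lb => vs p.1.1.length p.1.2.2.length) :=
      poly_vs.comp (NPC.Poly.fst NPC.Poly.id)
    exact NPC.Poly.pair (poly_ix h1 (poly_src (by fun_prop)))
      (poly_ix h1 (poly_tgt (by fun_prop) (by fun_prop) (by fun_prop)))

/-- the reduction -/
def redG (y : List Bool × List Unit) : Dig × List (ℕ × ℕ) :=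
  (H557R2.Mve.findn y.1).elim (([], [(0, 0)]) : Dig × List (ℕ × ℕ)) fun n =>
    redI ((List.range (min n y.1.length)).map (fun _ => ()), y.1, y.2)

theorem poly_redG : NPC.Poly redG := by
  unfold redG
  refine NPC.Poly.optElim (H557R2.Mve.poly_findn.comp (NPC.Poly.fst NPC.Poly.id))
    (NPC.Poly.const _) (poly_redI.comp ?_)
  refine NPC.Poly.pair ?_ (by fun_prop)
  refine NPC.Poly.map (F := fun _ _ => ()) (UPoly.range ?_) (NPC.Poly.const _)
  exact UPoly.of_le (n := fun p : (List Bool × List Unit) × ℕ => p.1.1.length)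
    (NPC.Poly.min (NPC.Poly.snd NPC.Poly.id)
      (UPoly.length (NPC.Poly.fst (NPC.Poly.fst NPC.Poly.id))).toPoly)
    (UPoly.length (NPC.Poly.fst (NPC.Poly.fst NPC.Poly.id))) (fun p => Nat.min_le_right _ _)

/-- the reduction as a function of the graph and of the parameter -/
def redFF (y : List Bool × ℕ) : Dig × List (ℕ × ℕ) := redG (y.1, List.replicate y.2 ())

theorem ft_redFF : FT (bits : Dig × List (ℕ × ℕ) → List Bool) redFF := by
  apply FT.of_pc
  have h : PC (bits : List Bool × List Unit → List Bool) (bits : Dig × List (ℕ × ℕ) → List Bool)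
    redG := poly_redG
  obtain ⟨c, p, h⟩ := h
  exact ⟨c, p, fun y => h (y.1, List.replicate y.2 ())⟩

theorem redFF_some {x : List Bool} {k n : ℕ} (h : H557R2.Mve.findn x = some n) :
    redFF (x, k) = (DD n k x, SS n k) := by
  have h1 : min n x.length = n := by
    rw [H557R2.Mve.findn_some h]
    exact min_eq_left (Nat.le_mul_self n)
  unfold redFF redG redI
  simp only [h, Option.elim, h1]
  simp

theorem redFF_none {x : List Bool} {k : ℕ} (h : H557R2.Mve.findn x = none) :
    redFF (x, k) = ([], [(0, 0)]) := by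
  unfold redFF redG
  simp [h]

theorem ks_length (k : ℕ) : (ks k).length = 6 * k + k * k := by
  unfold ks blk
  rw [List.length_flatMap, List.map_append, List.sum_append]
  have h1 : (List.product (List.range 3) (List.range (2 * k))).map (fun b : ℕ × ℕ =>
      ((List.range (if b.1 = 3 then k else 1)).map fun l => (b, l)).length) =
      (List.product (List.range 3) (List.range (2 * k))).map (fun _ => 1) := by
    apply List.map_congr_left
    rintro ⟨a, b⟩ h
    rw [List.pair_mem_product, List.mem_range, List.mem_range] at h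
    have : ¬ a = 3 := by omega
    simp [this]
  have h2 : (List.product [3] (List.range k)).map (fun b : ℕ × ℕ =>
      ((List.range (if b.1 = 3 then k else 1)).map fun l => (b, l)).length) =
      (List.product [3] (List.range k)).map (fun _ => k) := by
    apply List.map_congr_left
    rintro ⟨a, b⟩ h
    rw [List.pair_mem_product, List.mem_range] at h
    have : a = 3 := by simpa using h.1
    simp [this]
  rw [h1, h2]
  have h3 : ∀ a b : List ℕ, (List.product a b).length = a.length * b.length :=
    fun a b => List.length_product a b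
  rw [List.map_const', List.map_const', List.sum_replicate, List.sum_replicate, h3, h3,
    List.length_range, List.length_range, List.length_range, List.length_singleton, smul_eq_mul,
    smul_eq_mul]
  ring

theorem layered_nil : Layered [] (fun _ => 0) (fun _ => 0) 5 where
  rank u v h := by have := h.1; simp at this
  level u v h := by have := h.1; simp at this
  uniq u v v' h := by have := h.1; simp at this
  bound u := Nat.zero_le _

/-- **The reduction.** -/
theorem redFF_spec (x : List Bool) (k : ℕ) : Acyclic (redFF (x, k)).1 ∧ ea (redFF (x, k)).1 ≤ 7 ∧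
    ((redFF (x, k)).2.length = 1 ∨ (redFF (x, k)).2.length = 6 * k + k * k) ∧
    ((x, k) ∈ pClique ↔ Linkage (redFF (x, k)).1 (redFF (x, k)).2) := by
  cases h : H557R2.Mve.findn x with
  | none =>
    rw [redFF_none h]
    refine ⟨layered_nil.acyclic, ea_le layered_nil, Or.inl rfl, ?_⟩
    constructor
    · rintro ⟨n, hn, -⟩
      exact absurd hn (H557R2.Mve.findn_none h n)
    · rintro ⟨P, hP, -⟩
      exfalso
      obtain ⟨h1, -⟩ := hP ⟨0, by simp⟩
      obtain ⟨v, hv⟩ := List.exists_mem_of_ne_nil _ h1.ne
      have := h1.lt v hv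
      simp at this
  | some n =>
    rw [redFF_some h]
    refine ⟨(layered n k x).acyclic, ea_le (layered n k x), Or.inr ?_, ?_⟩
    · simp only
      rw [SS_length, ks_length]
    · simp only
      rw [linkage_iff, H557R2.Mve.mem_pClique_iff (H557R2.Mve.findn_some h), clique_iff]

/-- Running a Turing machine after a computation in fpt time. -/
theorem run_after {β : Type} [TEnc β] {F : List Bool × ℕ → β} (h : FT (bits : β → List Bool) F)
    (M : TM2ComputableAux Bool Bool) : ∃ (M' : TM2ComputableAux Bool Bool) (E : ℕ)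
    (B : List Bool → ℕ → ℕ), FB B ∧ ∀ (d : List Bool × ℕ → Bool) (t : List Bool → ℕ → ℕ),
      (∀ x k, Nonempty (TM2OutputsInTime M.tm ((bits (F (x, k))).map M.inputAlphabet.invFun)
        (some ([d (x, k)].map M.outputAlphabet.invFun)) (t x k))) →
      ∀ x k, Nonempty (TM2OutputsInTime M'.tm ((pcode (x, k)).map M'.inputAlphabet.invFun)
        (some ([d (x, k)].map M'.outputAlphabet.invFun)) (B x k + E * t x k)) := by
  have hl := h.length
  obtain ⟨c, B, hB, h⟩ := h
  obtain ⟨prog, E, hE⟩ := sim M
  refine ⟨{ tm := ((Cmd.seq c prog).map (Fin.ofNat ((Cmd.seq c prog).bd + 1))).toTM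
            inputAlphabet := Equiv.refl Bool
            outputAlphabet := Equiv.refl Bool }, E,
    fun x k => B x k + E * ((bits (F (x, k))).length + 1) + 1, ?_, ?_⟩
  · exact (hB.add ((FB.const E).mul (hl.add (FB.const 1)))).add (FB.const 1)
  · intro d t hd x k
    have h1 := (h x k).seq (hE _ _ _ (hd x k))
    obtain ⟨s, hs, hr⟩ := h1
    have h2 := hr.restrict (n := (Cmd.seq c prog).bd) (by omega)
    have e : ∀ l : List Bool, (fun i : Fin ((Cmd.seq c prog).bd + 1) =>
        (inp l : ℕ → List Bool) i) = inp l := by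
      intro l
      funext i
      by_cases hi : i = 0
      · subst hi; simp [inp]
      · have : (i : ℕ) ≠ 0 := fun h => hi (Fin.ext h)
        simp [inp, hi, this]
    have h3 : Nonempty (TM2OutputsInTime ((Cmd.seq c prog).map
        (Fin.ofNat ((Cmd.seq c prog).bd + 1))).toTM (pcode (x, k)) (some [d (x, k)]) (s + 1)) := by
      refine toTM_outputs ?_
      have h4 := h2
      rw [e, e] at h4
      exact h4
    obtain ⟨h3⟩ := h3
    refine ⟨outputs_conv (List.map_id _).symm (List.map_id _).symm ?_ h3⟩
    have h5 : E * ((bits (F (x, k))).length + t x k + 1) =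
        E * ((bits (F (x, k))).length + 1) + E * t x k := by ring
    rw [h5] at hs
    show s + 1 ≤ B x k + E * ((bits (F (x, k))).length + 1) + 1 + E * t x k
    omega

end Pool.Agent.Helper80K.Ea
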