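import Pool.Agent.Helper80K.Ea.Fwd

/-!
# The digraph of the reduction
-/

namespace Pool.Agent.Helper80K.Ea

open Pool.Agent.NPC Pool.Agent.R550.DS Pool.Agent.R550.W1

variable {n k : ℕ} {x : List Bool}

/-- the test for arcs -/
def T (n k : ℕ) (x : List Bool) (a b : Lb) : Bool :=
  (decide (a.1 = b.1) && (decide (a.1.1 ≤ 2) && decide (b.2 = a.2 + 1))) ||
  ((decide (a.1.2 = b.1.2) &&
    ((decide (a.1.1 = 0) && (decide (b.1.1 = 1) && decide (b.2 = a.2 * (k + 2) + k + 1))) ||
    ((decide (a.1.1 = 0) && (decide (b.1.1 = 2) && decide (b.2 = a.2))) ||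
    ((decide (a.1.1 = 1) && (decide (b.1.1 = 2) && (decide (a.2 = a.2 / (k + 2) * (k + 2)) &&
      decide (b.2 = a.2 / (k + 2) + 2)))) ||
    ((decide (a.1.1 = 2) && (decide (b.1.1 = 4) && decide (b.2 = 0))) ||
    (decide (a.1.1 = 3) && (decide (b.1.1 = 0) && decide (a.2 = 0)))))))) ||
  ((decide (a.1.1 = 1) && (decide (b.1.1 = 1) && (decide (a.1.2 < k) && (decide (k ≤ b.1.2) &&
    (decide (b.1.2 < k + k) && (decide (a.2 = a.2 / (k + 2) * (k + 2) + (b.1.2 - k) + 1) &&
    (decide (b.2 = b.2 / (k + 2) * (k + 2) + a.1.2 + 1) &&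
    alw n x a.1.2 (b.1.2 - k) (a.2 / (k + 2)) (b.2 / (k + 2))))))))) ||
  ((decide (a.1.1 = 1) && (decide (b.1.1 = 6) && (decide (b.1.2 < k) && (decide (b.2 < k) &&
    (decide (a.1.2 = k + b.2) &&
    decide (a.2 = a.2 / (k + 2) * (k + 2) + b.1.2 + 1)))))) ||
  (decide (a.1.1 = 5) && (decide (b.1.1 = 1) && (decide (a.1.2 = b.1.2) && (decide (a.1.2 < k) &&
    (decide (a.2 < k) && decide (b.2 = b.2 / (k + 2) * (k + 2) + a.2 + 1)))))))))

theorem div_lem (v o k : ℕ) (ho : o < k + 2) : (v * (k + 2) + o) / (k + 2) = v := by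
  rw [Nat.mul_comm, Nat.mul_add_div (by omega), Nat.div_eq_of_lt ho, Nat.add_zero]

theorem T_of_Arr {a b : Lb} (h : Arr n k x a b) : T n k x a b = true := by
  cases h with
  | dd c p q h => subst h; simp [T]
  | cc c p q h => subst h; simp [T]
  | ff c p q h => subst h; simp [T]
  | dc c p q h => subst h; simp [T]
  | df c p => simp [T]
  | cf c p q v h h' =>
    subst h h'
    have := div_lem v 0 k (by omega)
    rw [Nat.add_zero] at this
    simp [T, this]
  | rr i j v u p q d hi hj hd h h' hal =>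
    subst h h' hd
    have h1 := div_lem v (j + 1) k (by omega)
    have h2 := div_lem u (i + 1) k (by omega)
    rw [← Nat.add_assoc] at h1 h2
    simp [T, h1, h2, hi, hj, hal]
  | ct i j u q d hi hj hd h' =>
    subst h' hd
    have h2 := div_lem u (i + 1) k (by omega)
    rw [← Nat.add_assoc] at h2
    simp [T, h2, hi, hj]
  | fw c p => simp [T]
  | wd c p => simp [T]
  | sc i j v p hi hj h =>
    subst h
    have h1 := div_lem v (j + 1) k (by omega)
    rw [← Nat.add_assoc] at h1
    simp [T, h1, hi, hj]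

theorem Arr_of_T {a b : Lb} (ha : a ∈ vs n k) (h : T n k x a b = true) : Arr n k x a b := by
  obtain ⟨⟨e, c⟩, p⟩ := a
  obtain ⟨⟨e', c'⟩, p'⟩ := b
  rw [mem_vs] at ha
  unfold T at h
  simp only [Bool.or_eq_true, Bool.and_eq_true, decide_eq_true_eq, Prod.mk.injEq] at h ha
  rcases h with ⟨⟨rfl, rfl⟩, h1, h2⟩ | ⟨rfl, h⟩ | ⟨rfl, rfl, h1, h2, h3, h4, h5, h6⟩ |
    ⟨rfl, rfl, h1, h2, h3, h4⟩ | ⟨rfl, rfl, rfl, h1, h2, h3⟩
  · have : e = 0 ∨ e = 1 ∨ e = 2 := by omega
    rcases this with rfl | rfl | rfl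
    · exact Arr.dd c p p' h2
    · exact Arr.cc c p p' h2
    · exact Arr.ff c p p' h2
  · rcases h with ⟨rfl, rfl, h⟩ | ⟨rfl, rfl, h⟩ | ⟨rfl, rfl, h, h'⟩ | ⟨rfl, rfl, rfl⟩ |
      ⟨rfl, rfl, rfl⟩
    · exact Arr.dc c p p' h
    · subst h
      exact Arr.df c p'
    · exact Arr.cf c p p' _ h h'
    · exact Arr.fw c p
    · exact Arr.wd c p'
  · exact Arr.rr c (c' - k) _ _ p p' c' h1 (by omega) (by omega) h4 h5 h6
  · exact Arr.ct c' p' _ p c h1 h2 h3 h4
  · exact Arr.sc c p _ p' h1 h2 h3

/-- the index of a label -/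
def ix (vs : List Lb) (a : Lb) : ℕ :=
  ((vs.zipIdx.filter fun p => decide (p.1 = a)).map fun p => p.2).sum

theorem ix_spec (l : List Lb) (hl : l.Nodup) (i : ℕ) (hi : i < l.length) : ix l l[i] = i := by
  have key : ∀ (l : List Lb) (s : ℕ), l.Nodup → ∀ i (hi : i < l.length),
      (((l.zipIdx s).filter fun p => decide (p.1 = l[i])).map fun p => p.2).sum = s + i := by
    intro l
    induction l with
    | nil => intro s _ i hi; simp at hi
    | cons a l ih =>
      intro s hn i hi
      rw [List.nodup_cons] at hn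
      rw [List.zipIdx_cons, List.filter_cons]
      cases i with
      | zero =>
        simp only [List.getElem_cons_zero, decide_true, if_true, List.map_cons, List.sum_cons,
          Nat.add_zero]
        have : ((l.zipIdx (s + 1)).filter fun p => decide (p.1 = a)) = [] := by
          rw [List.filter_eq_nil_iff]
          rintro ⟨b, j⟩ hb
          simp only [decide_eq_true_eq]
          rintro rfl
          have h1 := List.mem_zipIdx hb
          obtain ⟨h1, h2, h3⟩ := h1
          exact hn.1 (by rw [h3]; exact List.getElem_mem _)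
        rw [this]
        simp
      | succ i =>
        have hi' : i < l.length := by simpa using hi
        have hne : ¬ a = l[i] := by
          intro h
          exact hn.1 (by rw [h]; exact List.getElem_mem _)
        simp only [List.getElem_cons_succ, hne, decide_false, Bool.false_eq_true, if_false]
        rw [ih (s + 1) hn.2 i hi']
        omega
  have := key l 0 hl i hi
  rw [Nat.zero_add] at this
  exact this

/-- the label of an index -/
def lab (n k : ℕ) (i : ℕ) : Lb := (vs n k).getD i ((0, 0), 0)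

theorem lab_mem {i : ℕ} (hi : i < (vs n k).length) : lab n k i ∈ vs n k := by
  unfold lab
  rw [List.getD_eq_getElem _ _ hi]
  exact List.getElem_mem hi

theorem ix_lt {a : Lb} (ha : a ∈ vs n k) : ix (vs n k) a < (vs n k).length := by
  obtain ⟨i, hi, rfl⟩ := List.getElem_of_mem ha
  rw [ix_spec _ nodup_vs i hi]
  exact hi

theorem lab_ix {a : Lb} (ha : a ∈ vs n k) : lab n k (ix (vs n k) a) = a := by
  obtain ⟨i, hi, rfl⟩ := List.getElem_of_mem ha
  rw [ix_spec _ nodup_vs i hi]
  unfold lab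
  rw [List.getD_eq_getElem _ _ hi]

theorem ix_lab {i : ℕ} (hi : i < (vs n k).length) : ix (vs n k) (lab n k i) = i := by
  unfold lab
  rw [List.getD_eq_getElem _ _ hi]
  exact ix_spec _ nodup_vs i hi

/-- the digraph -/
def DD (n k : ℕ) (x : List Bool) : Dig := mkG (vs n k) (T n k x)

theorem DD_length : (DD n k x).length = (vs n k).length := mkG_length _ _

/-- the levels -/
def lv (k : ℕ) (a : Lb) : ℕ :=
  if a.1.1 = 0 then 1 else if a.1.1 = 1 then (if a.1.2 < k then 2 else 3)
  else if a.1.1 = 2 then 4 else if a.1.1 = 3 then 0 else if a.1.1 = 5 then 0 else 5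

theorem lv_le {a b : Lb} (h : Arr n k x a b) :
    (lv k a < lv k b) ∨ (lv k a = lv k b ∧ b = (a.1, a.2 + 1)) := by
  cases h with
  | dd c p q h => right; subst h; exact ⟨rfl, rfl⟩
  | cc c p q h => right; subst h; exact ⟨rfl, rfl⟩
  | ff c p q h => right; subst h; exact ⟨rfl, rfl⟩
  | dc c p q h => left; unfold lv; simp; split_ifs <;> omega
  | df c p => left; unfold lv; simp
  | cf c p q v h h' => left; unfold lv; simp; split_ifs <;> omega
  | rr i j v u p q d hi hj hd h h' hal =>
    left; unfold lv; simp [hi]; split_ifs <;> omega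
  | ct i j u q d hi hj hd h' => left; unfold lv; simp; split_ifs <;> omega
  | fw c p => left; unfold lv; simp
  | wd c p => left; unfold lv; simp
  | sc i j v p hi hj h => left; unfold lv; simp [hi]

theorem irr {a : Lb} : ¬ Arr n k x a a := by
  intro h
  rcases lv_le h with h1 | ⟨_, h1⟩
  · exact lt_irrefl _ h1
  · have := congrArg Prod.snd h1
    simp at this

theorem arc_iff {u v : ℕ} : Arc (DD n k x) u v ↔
    u < (vs n k).length ∧ v < (vs n k).length ∧ Arr n k x (lab n k u) (lab n k v) := by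
  unfold Arc
  rw [DD_length]
  have key : ∀ (hu : u < (vs n k).length) (hv : v < (vs n k).length),
      v ∈ (DD n k x).getD u [] ↔ T n k x (lab n k u) (lab n k v) = true := by
    intro hu hv
    have hu' : u < (DD n k x).length := by rw [DD_length]; exact hu
    rw [List.getD_eq_getElem _ _ hu']
    unfold lab
    rw [List.getD_eq_getElem _ _ hu, List.getD_eq_getElem _ _ hv]
    simp only [DD, mkG, List.getElem_map, List.mem_map, List.mem_filter]
    constructor
    · rintro ⟨⟨y, i⟩, ⟨h1, h2⟩, h3⟩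
      rw [List.mem_zipIdx_iff_getElem?] at h1
      simp only at h1 h2 h3
      subst h3
      rw [List.getElem?_eq_getElem hv] at h1
      simp only [Option.some.injEq] at h1
      subst h1
      exact h2
    · intro h
      refine ⟨((vs n k)[v], v), ⟨?_, h⟩, rfl⟩
      rw [List.mem_zipIdx_iff_getElem?]
      exact List.getElem?_eq_getElem hv
  constructor
  · rintro ⟨hu, hv, h1, h2⟩
    exact ⟨hu, hv, Arr_of_T (lab_mem hu) ((key hu hv).1 h2)⟩
  · rintro ⟨hu, hv, h⟩
    refine ⟨hu, hv, ?_, (key hu hv).2 (T_of_Arr h)⟩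
    rintro rfl
    exact irr h

theorem layered (n k : ℕ) (x : List Bool) : Layered (DD n k x) (fun i => lv k (lab n k i))
    (fun i => lv k (lab n k i) * (n * (k + 2) + n + k + 3) + (lab n k i).2) 5 where
  rank u v h := by
    rw [arc_iff] at h
    obtain ⟨hu, hv, h⟩ := h
    have h1 := mem_vs.1 (lab_mem hu)
    rcases lv_le h with h2 | ⟨h2, h3⟩
    · have h4 : (lab n k u).2 < n * (k + 2) + n + k + 3 := by
        generalize n * (k + 2) = N at h1 ⊢
        omega
      have h5 := Nat.mul_le_mul_right (n * (k + 2) + n + k + 3)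
        (show lv k (lab n k u) + 1 ≤ lv k (lab n k v) from h2)
      rw [Nat.add_mul, Nat.one_mul] at h5
      omega
    · rw [← h2, h3]
      exact Nat.lt_succ_self _
  level u v h := by
    rw [arc_iff] at h
    obtain ⟨hu, hv, h⟩ := h
    rcases lv_le h with h2 | ⟨h2, h3⟩
    · exact h2.le
    · exact h2.le
  uniq u v v' h h' e e' := by
    rw [arc_iff] at h h'
    obtain ⟨hu, hv, h⟩ := h
    obtain ⟨_, hv', h'⟩ := h'
    have h1 : lab n k v = lab n k v' := by
      rcases lv_le h with h2 | ⟨h2, h3⟩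
      · omega
      · rcases lv_le h' with h4 | ⟨h4, h5⟩
        · omega
        · rw [h3, h5]
    rw [← ix_lab hv, ← ix_lab hv', h1]
  bound u := by
    unfold lv
    split_ifs <;> omega

/-- the pairs -/
def SS (n k : ℕ) : List (ℕ × ℕ) :=
  (ks k).map fun a => (ix (vs n k) (src a), ix (vs n k) (tgt n k a))

theorem SS_length : (SS n k).length = (ks k).length := by
  unfold SS
  rw [List.length_map]

theorem SS_getElem (i : ℕ) (hi : i < (ks k).length) :
    (SS n k).get ⟨i, by rw [SS_length]; exact hi⟩ =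
      (ix (vs n k) (src (ks k)[i]), ix (vs n k) (tgt n k (ks k)[i])) := by
  simp [SS]

theorem src_mem {a : Lb} (ha : a ∈ ks k) : src a ∈ vs n k := by
  obtain ⟨⟨e, c⟩, j⟩ := a
  rw [mem_ks] at ha
  simp only at ha
  rcases ha with ⟨rfl, hc, rfl⟩ | ⟨rfl, hc, rfl⟩ | ⟨rfl, hc, rfl⟩ | ⟨rfl, hi, hj⟩
  · exact mem_vs.2 (Or.inr (Or.inl ⟨rfl, hc, Nat.zero_le _⟩))
  · exact mem_vs.2 (Or.inl ⟨rfl, hc, Nat.zero_le _⟩)
  · exact mem_vs.2 (Or.inr (Or.inr (Or.inr (Or.inl ⟨rfl, hc, rfl⟩))))
  · exact mem_vs.2 (Or.inr (Or.inr (Or.inr (Or.inr (Or.inr ⟨Or.inl rfl, hi, hj⟩)))))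

theorem tgt_mem {a : Lb} (ha : a ∈ ks k) : tgt n k a ∈ vs n k := by
  obtain ⟨⟨e, c⟩, j⟩ := a
  rw [mem_ks] at ha
  simp only at ha
  rcases ha with ⟨rfl, hc, rfl⟩ | ⟨rfl, hc, rfl⟩ | ⟨rfl, hc, rfl⟩ | ⟨rfl, hi, hj⟩
  · exact mem_vs.2 (Or.inr (Or.inr (Or.inl ⟨rfl, hc, le_rfl⟩)))
  · exact mem_vs.2 (Or.inr (Or.inl ⟨rfl, hc, le_rfl⟩))
  · exact mem_vs.2 (Or.inr (Or.inr (Or.inr (Or.inr (Or.inl ⟨rfl, hc, rfl⟩)))))
  · exact mem_vs.2 (Or.inr (Or.inr (Or.inr (Or.inr (Or.inr ⟨Or.inr rfl, hi, hj⟩)))))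

theorem isChain_map_of {α β : Type} {R : α → α → Prop} {S : β → β → Prop} (g : α → β)
    {l : List α} (h : l.IsChain R) (hg : ∀ a ∈ l, ∀ b ∈ l, R a b → S (g a) (g b)) :
    (l.map g).IsChain S := by
  induction l with
  | nil => simp
  | cons a l ih =>
    cases l with
    | nil => simp
    | cons b l =>
      rw [List.isChain_cons_cons] at h
      rw [List.map_cons, List.map_cons, List.isChain_cons_cons]
      refine ⟨hg a (by simp) b (by simp) h.1, ?_⟩
      have := ih h.2 (fun a ha b hb => hg a (List.mem_cons_of_mem _ ha) b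
        (List.mem_cons_of_mem _ hb))
      rwa [List.map_cons] at this

theorem nodup_of_chain {D : Dig} {lev rk : ℕ → ℕ} {B : ℕ} (h : Layered D lev rk B) {P : List ℕ}
    (hP : P.IsChain (Arc D)) : P.Nodup := by
  induction P with
  | nil => simp
  | cons a P ih =>
    rw [List.nodup_cons]
    refine ⟨fun h1 => lt_irrefl _ (rk_lt h hP _ h1), ih ?_⟩
    cases P with
    | nil => simp
    | cons b P => exact (List.isChain_cons_cons.1 hP).2

/-- **Correctness of the reduction.** -/
theorem linkage_iff : Linkage (DD n k x) (SS n k) ↔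
    ∃ f : ℕ → ℕ, (∀ i < k, f i < n) ∧ ∀ i < k, ∀ j < k, alw n x i j (f i) (f j) = true := by
  classical
  constructor
  · rintro ⟨P, hP, hdis⟩
    have hidx : ∀ a : Lb, a ∈ ks k → ∃ i, ∃ hi : i < (ks k).length, (ks k)[i] = a := by
      intro a ha
      obtain ⟨i, hi, h⟩ := List.getElem_of_mem ha
      exact ⟨i, hi, h⟩
    let P' : Lb → List Lb := fun a => if h : a ∈ ks k then
      (P ⟨(hidx a h).choose, by rw [SS_length]; exact (hidx a h).choose_spec.choose⟩).map
        (lab n k) else []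
    have hP' : ∀ i (hi : i < (ks k).length), P' (ks k)[i] =
        (P ⟨i, by rw [SS_length]; exact hi⟩).map (lab n k) := by
      intro i hi
      have hm : (ks k)[i] ∈ ks k := List.getElem_mem hi
      simp only [P', dif_pos hm]
      congr 2
      apply Fin.ext
      exact (List.Nodup.getElem_inj_iff nodup_ks).1 (hidx _ hm).choose_spec.choose_spec
    refine clique_of_lk (P := P') ⟨?_, ?_, ?_⟩
    · intro a ha
      obtain ⟨i, hi, rfl⟩ := hidx a ha
      rw [hP' i hi]
      obtain ⟨h1, h2, h3⟩ := hP ⟨i, by rw [SS_length]; exact hi⟩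
      rw [SS_getElem i hi] at h2 h3
      simp only at h2 h3
      refine W.of_chain ?_ ?_ ?_
      · exact isChain_map_of _ h1.chain (fun a _ b _ h => (arc_iff.1 h).2.2)
      · rw [List.head?_map, h2, Option.map_some, lab_ix (src_mem ha)]
      · rw [List.getLast?_map, h3, Option.map_some, lab_ix (tgt_mem ha)]
    · intro a ha b hb
      obtain ⟨i, hi, rfl⟩ := hidx a ha
      rw [hP' i hi, List.mem_map] at hb
      obtain ⟨v, hv, rfl⟩ := hb
      have := (hP ⟨i, by rw [SS_length]; exact hi⟩).1.lt v hv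
      rw [DD_length] at this
      exact lab_mem this
    · intro a ha a' ha' hne b hb hb'
      obtain ⟨i, hi, rfl⟩ := hidx a ha
      obtain ⟨i', hi', rfl⟩ := hidx a' ha'
      rw [hP' i hi, List.mem_map] at hb
      rw [hP' i' hi', List.mem_map] at hb'
      obtain ⟨v, hv, rfl⟩ := hb
      obtain ⟨v', hv', hvv⟩ := hb'
      have h1 := (hP ⟨i, by rw [SS_length]; exact hi⟩).1.lt v hv
      have h2 := (hP ⟨i', by rw [SS_length]; exact hi'⟩).1.lt v' hv'
      rw [DD_length] at h1 h2
      have h3 : v' = v := by rw [← ix_lab h1, ← ix_lab h2, hvv]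
      subst h3
      refine hdis ⟨i, by rw [SS_length]; exact hi⟩ ⟨i', by rw [SS_length]; exact hi'⟩ ?_ hv hv'
      intro h4
      have : i = i' := congrArg Fin.val h4
      subst this
      exact hne rfl
  · rintro ⟨f, hf, hal⟩
    have h := lk_of_clique hf hal
    have hks : ∀ i : Fin (SS n k).length, (ks k)[(i : ℕ)]'(by rw [← SS_length (n := n)]; exact i.2) ∈
        ks k := fun i => List.getElem_mem _
    refine ⟨fun i => (PP n k f ((ks k)[(i : ℕ)]'(by rw [← SS_length (n := n)]; exact i.2))).map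
      (ix (vs n k)), fun i => ?_, fun i j hij => ?_⟩
    · have hi : (i : ℕ) < (ks k).length := by rw [← SS_length (n := n)]; exact i.2
      have hw := h.walk _ (hks i)
      have hm := h.mem _ (hks i)
      have hch : ((PP n k f (ks k)[(i : ℕ)]).map (ix (vs n k))).IsChain (Arc (DD n k x)) := by
        refine isChain_map_of _ hw.isChain (fun a ha b hb hab => ?_)
        rw [arc_iff]
        exact ⟨ix_lt (hm a ha), ix_lt (hm b hb), by rw [lab_ix (hm a ha), lab_ix (hm b hb)]; exact hab⟩
      refine ⟨⟨?_, ?_, nodup_of_chain (layered n k x) hch, hch⟩, ?_, ?_⟩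
      · intro h1
        rw [List.map_eq_nil_iff] at h1
        have := hw.head_mem
        rw [h1] at this
        simp at this
      · intro v hv
        rw [List.mem_map] at hv
        obtain ⟨a, ha, rfl⟩ := hv
        rw [DD_length]
        exact ix_lt (hm a ha)
      · rw [List.head?_map, hw.head?]
        exact congrArg some (congrArg Prod.fst (SS_getElem (i : ℕ) hi)).symm
      · rw [List.getLast?_map, hw.getLast?]
        exact congrArg some (congrArg Prod.snd (SS_getElem (i : ℕ) hi)).symm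
    · intro v hv hv'
      rw [List.mem_map] at hv hv'
      obtain ⟨a, ha, rfl⟩ := hv
      obtain ⟨a', ha', haa⟩ := hv'
      have h1 := h.mem _ (hks i) a ha
      have h2 := h.mem _ (hks j) a' ha'
      have h3 : a' = a := by rw [← lab_ix h1, ← lab_ix h2, haa]
      subst h3
      refine h.disj _ (hks i) _ (hks j) ?_ a' ha ha'
      intro h4
      exact hij (Fin.ext ((List.Nodup.getElem_inj_iff nodup_ks).1 h4))

end Pool.Agent.Helper80K.Ea
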